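import Pool.Agent.Helper40.AS.Cx

/-!
Alternation points.
-/

set_option autoImplicit false

namespace Pool.Agent.Helper40.AS

open Polynomial Set

noncomputable section

theorem alt_of_finset {P : ℝ[X]} {S : Finset ℝ}
    (hS : ∀ x, x ∈ S ↔ x ∈ Icc (-1 : ℝ) 1 ∧ |P.eval x| = 1)
    (hc : ∀ c ∈ Ioo (-1 : ℝ) 1, P.derivative.eval c = 0 → |P.eval c| = 1) {n : ℕ} (hn : 1 ≤ n)
    (hcard : n ≤ S.card) :
    ∃ x : Fin n → ℝ, StrictMono x ∧ (∀ i, x i ∈ Icc (-1 : ℝ) 1) ∧
      ((∀ i : Fin n, P.eval (x i) = (-1) ^ (i : ℕ)) ∨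
        (∀ i : Fin n, P.eval (x i) = -(-1) ^ (i : ℕ))) := by
  classical
  set e := S.orderEmbOfFin rfl with he
  have hmem : ∀ i, e i ∈ S := fun i => S.orderEmbOfFin_mem rfl i
  have hstep : ∀ (i : ℕ) (hi : i + 1 < S.card),
      P.eval (e ⟨i + 1, hi⟩) = -P.eval (e ⟨i, by omega⟩) := by
    intro i hi
    set p := e ⟨i, by omega⟩ with hp
    set q := e ⟨i + 1, hi⟩ with hq
    have hpq : p < q := e.strictMono (by simp [Fin.lt_def])
    have h1 := (hS p).1 (hmem _)
    have h2 := (hS q).1 (hmem _)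
    by_contra hcon
    have heq : P.eval p = P.eval q := by
      rcases eq_or_eq_neg_of_abs_eq h1.2 with h3 | h3 <;>
      rcases eq_or_eq_neg_of_abs_eq h2.2 with h4 | h4
      · rw [h3, h4]
      · exact absurd (by rw [h3, h4]) hcon
      · exact absurd (by rw [h3, h4, neg_neg]) hcon
      · rw [h3, h4]
    obtain ⟨c, hc1, hc2⟩ := exists_hasDerivAt_eq_zero (f := fun x => P.eval x)
      (f' := fun x => P.derivative.eval x) hpq P.continuous.continuousOn heq
      (fun x _ => P.hasDerivAt x)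
    have hc3 : c ∈ Ioo (-1 : ℝ) 1 := ⟨by linarith [h1.1.1, hc1.1], by linarith [h2.1.2, hc1.2]⟩
    have hcS : c ∈ S := (hS c).2 ⟨⟨hc3.1.le, hc3.2.le⟩, hc c hc3 hc2⟩
    have hr : c ∈ Set.range e := by
      rw [he, Finset.range_orderEmbOfFin]
      exact hcS
    obtain ⟨j, rfl⟩ := hr
    have h5 : (⟨i, by omega⟩ : Fin S.card) < j := e.lt_iff_lt.1 hc1.1
    have h6 : j < ⟨i + 1, hi⟩ := e.lt_iff_lt.1 hc1.2
    rw [Fin.lt_def] at h5 h6
    simp only at h5 h6
    omega
  have h0 : 0 < S.card := by omega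
  have hall : ∀ (i : ℕ) (hi : i < S.card), P.eval (e ⟨i, hi⟩) = P.eval (e ⟨0, h0⟩) * (-1) ^ i := by
    intro i
    induction i with
    | zero => intro hi; simp
    | succ i ih =>
      intro hi
      rw [hstep i hi, ih (by omega), pow_succ]
      ring
  refine ⟨fun i => e (Fin.castLE hcard i), fun i j hij => e.strictMono (by
    rw [Fin.lt_def] at hij ⊢
    simpa using hij), fun i => ((hS _).1 (hmem _)).1, ?_⟩
  have h1 := ((hS _).1 (hmem ⟨0, h0⟩)).2
  rcases eq_or_eq_neg_of_abs_eq h1 with h2 | h2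
  · left
    intro i
    have := hall i (by omega)
    rw [h2, one_mul] at this
    exact this
  · right
    intro i
    have := hall i (by omega)
    rw [h2] at this
    rw [neg_one_mul] at this
    exact this

variable {n : ℕ} {a b : ℝ} {P : ℝ[X]}

/-- the set of contact points -/
theorem exists_contactSet (hP : P.derivative ≠ 0) :
    ∃ S : Finset ℝ, ∀ x, x ∈ S ↔ x ∈ Icc (-1 : ℝ) 1 ∧ |P.eval x| = 1 := by
  classical
  have hne : P ^ 2 - 1 ≠ 0 := by
    intro h0
    have h1 : (P ^ 2 - 1).derivative = 0 := by rw [h0, derivative_zero]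
    have h2 : (P ^ 2 - 1).derivative = C 2 * P * P.derivative := by
      simp [derivative_pow]
    rw [h2] at h1
    have h3 : P ≠ 0 := fun h => hP (by rw [h, derivative_zero])
    exact (mul_ne_zero (mul_ne_zero (by simp) h3) hP) h1
  refine ⟨(P ^ 2 - 1).roots.toFinset.filter (fun x => x ∈ Icc (-1 : ℝ) 1), fun x => ?_⟩
  rw [Finset.mem_filter, Multiset.mem_toFinset, mem_roots hne, IsRoot, eval_sub, eval_pow,
    eval_one, sub_eq_zero, and_comm, ← sq_abs]
  constructor
  · rintro ⟨h1, h2⟩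
    exact ⟨h1, (pow_eq_one_iff_of_nonneg (abs_nonneg _) two_ne_zero).1 h2⟩
  · rintro ⟨h1, h2⟩
    exact ⟨h1, by rw [h2, one_pow]⟩

open Classical in
theorem card_contacts (h : Ext n a b P) (hn : 1 ≤ n) (ha : -1 ≤ a) (hab : a < b) (hb : b ≤ 1)
    (hnn : ∀ z : ℂ, aeval z P.derivative = 0 → ¬ Lens a b z) {S : Finset ℝ}
    (hS : ∀ x, x ∈ S ↔ x ∈ Icc (-1 : ℝ) 1 ∧ |P.eval x| = 1) :
    ((P.derivative.aroots ℂ).filter fun z => Lens a b z ∨ Contact P z).card ≤
      (S.filter fun x => x ≠ -1 ∧ x ≠ 1).card := by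
  set m := (P.derivative.aroots ℂ).filter fun z => Lens a b z ∨ Contact P z with hm
  have hne : P.derivative.map (algebraMap ℝ ℂ) ≠ 0 := by
    rw [Ne, Polynomial.map_eq_zero]
    exact ext_ne h hn hab
  have hcon : ∀ z ∈ m, Contact P z ∧ aeval z P.derivative = 0 := by
    intro z hz
    rw [hm, Multiset.mem_filter] at hz
    have h1 := (mem_aroots.1 hz.1).2
    exact ⟨hz.2.resolve_left (hnn z h1), h1⟩
  have hnd : m.Nodup := by
    rw [Multiset.nodup_iff_count_le_one]
    intro z
    by_cases hz : z ∈ m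
    · obtain ⟨⟨hz1, hz2, hz3, hz4⟩, hz5⟩ := hcon z hz
      refine (Multiset.count_le_of_le z (Multiset.filter_le _ _)).trans ?_
      rw [aroots, count_roots]
      by_contra hlt
      push Not at hlt
      rw [one_lt_rootMultiplicity_iff_isRoot hne] at hlt
      have hr := aeval_real hz1 hz5
      have hsimple : P.derivative.derivative.eval z.re ≠ 0 := by
        rcases le_or_gt z.re a with h3 | h3
        · exact (left_contact h hn hab hb hz2 h3 hr).2
        rcases le_or_gt b z.re with h4 | h4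
        · exact (right_contact h hn hab ha hz3 h4 hr).2
        exact absurd (lens_real hab hz1 h3 h4) (hnn z hz5)
      apply hsimple
      refine aeval_real hz1 ?_
      have := hlt.2
      rw [derivative_map, IsRoot, eval_map_algebraMap] at this
      exact this
    · rw [Multiset.count_eq_zero_of_notMem hz]
      exact Nat.zero_le _
  have h1 : m.card = m.toFinset.card := (Multiset.toFinset_card_of_nodup hnd).symm
  have hinj : Set.InjOn (fun z : ℂ => z.re) (m.toFinset : Set ℂ) := by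
    intro z hz w hw hzw
    have h2 := (hcon z (by simpa using hz)).1.1
    have h3 := (hcon w (by simpa using hw)).1.1
    exact Complex.ext hzw (by rw [h2, h3])
  rw [h1, ← Finset.card_image_of_injOn hinj]
  apply Finset.card_le_card
  intro x hx
  rw [Finset.mem_image] at hx
  obtain ⟨z, hz, rfl⟩ := hx
  obtain ⟨hz1, hz2, hz3, hz4⟩ := (hcon z (by simpa using hz)).1
  rw [Finset.mem_filter, hS]
  exact ⟨⟨⟨hz2.le, hz3.le⟩, hz4⟩, hz2.ne', hz3.ne⟩

/-- If no critical point is near the window, an extremal polynomial has `n` alternation points. -/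
theorem alternation (h : Ext n a b P) (hn : 1 ≤ n) (ha : -1 ≤ a) (hab : a < b) (hb : b ≤ 1)
    (hwa : b - a ≤ 1 + a) (hwb : b - a ≤ 1 - b)
    (hnn : ∀ z : ℂ, aeval z P.derivative = 0 → ¬ Lens a b z) :
    ∃ x : Fin n → ℝ, StrictMono x ∧ (∀ i, x i ∈ Icc (-1 : ℝ) 1) ∧
      ((∀ i : Fin n, P.eval (x i) = (-1) ^ (i : ℕ)) ∨
        (∀ i : Fin n, P.eval (x i) = -(-1) ^ (i : ℕ))) := by
  classical
  obtain ⟨S, hS⟩ := exists_contactSet (ext_ne h hn hab)
  refine alt_of_finset hS ?_ hn ?_
  · intro c hc hc0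
    have hz : aeval (c : ℂ) P.derivative = 0 := by
      have : (c : ℂ) = algebraMap ℝ ℂ c := rfl
      rw [this, aeval_algebraMap_apply, coe_aeval_eq_eval, hc0, map_zero]
    by_contra hcon
    have h2 := exc_real h hn ha hab hb hwa hwb hz (hnn _ hz) (fun h3 => hcon (by
      simpa using h3.2.2.2))
    rw [Complex.ofReal_re] at h2
    rcases h2.2 with h3 | h3
    · linarith [hc.1]
    · linarith [hc.2]
  · have h1 := card_contacts h hn ha hab hb hnn hS
    have h2 := count_good h hn ha hab hb hwa hwb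
    set k := ((P.derivative.aroots ℂ).filter fun z => Lens a b z ∨ Contact P z).card with hk
    by_cases hm : |P.eval (-1)| = 1
    · by_cases hp : |P.eval 1| = 1
      · have h3 : insert (-1) (insert 1 (S.filter fun x => x ≠ -1 ∧ x ≠ 1)) ⊆ S := by
          intro x hx
          rw [Finset.mem_insert, Finset.mem_insert, Finset.mem_filter] at hx
          rcases hx with rfl | rfl | hx
          · exact (hS _).2 ⟨⟨le_rfl, by norm_num⟩, hm⟩
          · exact (hS _).2 ⟨⟨by norm_num, le_rfl⟩, hp⟩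
          · exact hx.1
        have h4 := Finset.card_le_card h3
        rw [Finset.card_insert_of_notMem (by
          rw [Finset.mem_insert, Finset.mem_filter]
          rintro (h5 | h5)
          · norm_num at h5
          · exact h5.2.1 rfl), Finset.card_insert_of_notMem (by
          rw [Finset.mem_filter]
          rintro h5
          exact h5.2.2 rfl)] at h4
        omega
      · have h3 : insert (-1) (S.filter fun x => x ≠ -1 ∧ x ≠ 1) ⊆ S := by
          intro x hx
          rw [Finset.mem_insert, Finset.mem_filter] at hx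
          rcases hx with rfl | hx
          · exact (hS _).2 ⟨⟨le_rfl, by norm_num⟩, hm⟩
          · exact hx.1
        have h4 := Finset.card_le_card h3
        rw [Finset.card_insert_of_notMem (by
          rw [Finset.mem_filter]
          rintro h5
          exact h5.2.1 rfl)] at h4
        have h5 := count_free' h hn ha hab hb (Or.inr hp)
        omega
    · have hp : |P.eval 1| = 1 := (ends h hn hab).resolve_left hm
      have h3 : insert 1 (S.filter fun x => x ≠ -1 ∧ x ≠ 1) ⊆ S := by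
        intro x hx
        rw [Finset.mem_insert, Finset.mem_filter] at hx
        rcases hx with rfl | hx
        · exact (hS _).2 ⟨⟨by norm_num, le_rfl⟩, hp⟩
        · exact hx.1
      have h4 := Finset.card_le_card h3
      rw [Finset.card_insert_of_notMem (by
        rw [Finset.mem_filter]
        rintro h5
        exact h5.2.2 rfl)] at h4
      have h5 := count_free' h hn ha hab hb (Or.inl hm)
      omega

/-- the hypotheses on a short window -/
theorem win_of (ha : -1 ≤ a) (hab : a < b) (hb : b ≤ 1)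
    (h1 : 400 ≤ (n : ℝ) ^ 2 * (1 - a ^ 2)) (h2 : 400 ≤ (n : ℝ) ^ 2 * (1 - b ^ 2))
    (h3 : 2 * n * (b - a) ≤ 1 - a ^ 2) (h4 : 2 * n * (b - a) ≤ 1 - b ^ 2) :
    ∃ σ : ℝ, Win n a b σ := by
  have hn20 : (20 : ℝ) ≤ n := by
    have h5 : (20 : ℝ) ^ 2 ≤ (n : ℝ) ^ 2 := by nlinarith [sq_nonneg a, sq_nonneg (n : ℝ)]
    exact (pow_le_pow_iff_left₀ (by norm_num) (by positivity) two_ne_zero).1 h5
  have hn : 20 ≤ n := by exact_mod_cast hn20
  set t := min (1 - a ^ 2) (1 - b ^ 2) with ht
  have hta : t ≤ 1 - a ^ 2 := min_le_left _ _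
  have htb : t ≤ 1 - b ^ 2 := min_le_right _ _
  have ht0 : 400 ≤ (n : ℝ) ^ 2 * t := by
    rcases min_choice (1 - a ^ 2) (1 - b ^ 2) with h5 | h5
    · rw [ht, h5]; exact h1
    · rw [ht, h5]; exact h2
  have htw : 2 * n * (b - a) ≤ t := le_min h3 h4
  have htpos : 0 < t := by
    by_contra hcon
    push Not at hcon
    nlinarith [sq_nonneg (n : ℝ)]
  exact ⟨√t,
    { hn := hn
      ha := ha
      hab := hab
      hb := hb
      hσ := Real.sqrt_pos.2 htpos
      hs := fun x hx => by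
        rw [Real.sq_sqrt htpos.le]
        rcases le_total 0 x with h5 | h5
        · nlinarith [hx.1, hx.2]
        · nlinarith [hx.1, hx.2]
      hnσ := by
        have h5 : (20 : ℝ) ^ 2 ≤ (n * √t) ^ 2 := by
          rw [mul_pow, Real.sq_sqrt htpos.le]
          linarith
        exact (pow_le_pow_iff_left₀ (by norm_num) (by positivity) two_ne_zero).1 h5
      hw := by
        rw [Real.sq_sqrt htpos.le]
        exact htw }⟩

theorem real_contact (h : Ext n a b P) (hn : 1 ≤ n) (ha : -1 ≤ a) (hab : a < b) (hb : b ≤ 1)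
    (hnn : ∀ z : ℂ, aeval z P.derivative = 0 → ¬ Lens a b z) {c : ℝ} (hc : c ∈ Ioo (-1 : ℝ) 1)
    (hc0 : P.derivative.eval c = 0) : |P.eval c| = 1 := by
  rcases le_or_gt c a with h3 | h3
  · exact (left_contact h hn hab hb hc.1 h3 hc0).1
  rcases le_or_gt b c with h4 | h4
  · exact (right_contact h hn hab ha hc.2 h4 hc0).1
  exfalso
  have hz : aeval (c : ℂ) P.derivative = 0 := by
    have : (c : ℂ) = algebraMap ℝ ℂ c := rfl
    rw [this, aeval_algebraMap_apply, coe_aeval_eq_eval, hc0, map_zero]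
  exact hnn _ hz (lens_real hab (by simp) (by simpa using h3) (by simpa using h4))

/-- short windows -/
theorem short_windows (h : Ext n a b P) (ha : -1 ≤ a) (hab : a < b) (hb : b ≤ 1)
    (h1 : 400 ≤ (n : ℝ) ^ 2 * (1 - a ^ 2)) (h2 : 400 ≤ (n : ℝ) ^ 2 * (1 - b ^ 2))
    (h3 : 2 * n * (b - a) ≤ 1 - a ^ 2) (h4 : 2 * n * (b - a) ≤ 1 - b ^ 2) :
    (∀ x ∈ Icc a b, P.derivative.eval x ≠ 0) ∧
    (∀ c ∈ Ioo (-1 : ℝ) 1, P.derivative.eval c = 0 → |P.eval c| = 1) ∧
    ∃ x : Fin n → ℝ, StrictMono x ∧ (∀ i, x i ∈ Icc (-1 : ℝ) 1) ∧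
      ((∀ i : Fin n, P.eval (x i) = (-1) ^ (i : ℕ)) ∨
        (∀ i : Fin n, P.eval (x i) = -(-1) ^ (i : ℕ))) := by
  obtain ⟨σ, hwin⟩ := win_of ha hab hb h1 h2 h3 h4
  have hn20 : (20 : ℝ) ≤ n := by exact_mod_cast hwin.hn
  have hn1 : 1 ≤ n := by have := hwin.hn; omega
  have hba : b - a ≤ (1 - a ^ 2) / 40 := by
    rw [le_div_iff₀ (by norm_num)]
    nlinarith [mul_nonneg (sub_nonneg.2 hn20) (sub_nonneg.2 hab.le)]
  have hbb : b - a ≤ (1 - b ^ 2) / 40 := by
    rw [le_div_iff₀ (by norm_num)]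
    nlinarith [mul_nonneg (sub_nonneg.2 hn20) (sub_nonneg.2 hab.le)]
  have hnl : ∀ z : ℂ, aeval z P.derivative = 0 → ¬ Lens a b z := fun z hz => hwin.not_lens h hz
  refine ⟨fun x hx => hwin.real_case h hx, fun c hc hc0 => real_contact h hn1 ha hab hb hnl hc hc0,
    alternation h hn1 ha hab hb ?_ ?_ hnl⟩
  · nlinarith
  · nlinarith

end

end Pool.Agent.Helper40.AS
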