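import Pool.Agent.Helper40.AS.Gen

/-!
Critical points away from the window: free end point, and pairs.
-/

set_option autoImplicit false

namespace Pool.Agent.Helper40.AS

open Polynomial Set MeasureTheory intervalIntegral Filter Topology

noncomputable section

variable {n : ℕ} {a b : ℝ} {P : ℝ[X]}

theorem deg_sq (b : ℝ) : ((C b - X) ^ 2 : ℝ[X]).natDegree ≤ 2 := by
  compute_degree

/-- Free left end point: no real critical point `y ≥ 1`. -/
theorem free_ge (h : Ext n a b P) (hn : 1 ≤ n) (ha : -1 ≤ a) (hab : a < b) (hb : b ≤ 1)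
    (hf : |P.eval (-1)| ≠ 1) {y : ℝ} (hy : 1 ≤ y) (hr : P.derivative.eval y = 0) : False := by
  obtain ⟨R, hR⟩ : X - C y ∣ P.derivative := dvd_iff_isRoot.2 hr
  have hR2 : P.derivative = (C y - X) * (-R) := by
    rw [hR]
    ring
  refine excl' h hn hab (W := (C b - X) ^ 2) (D := C y - X) hR2 ?_ ?_ ?_
    (fun h1 => absurd h1 hf) ?_ ?_ ?_ ?_
  · have : (C y - X : ℝ[X]).natDegree = 1 := by
      rw [← neg_sub, natDegree_neg, natDegree_X_sub_C]
    rw [this]
    exact deg_sq b
  · intro x hx hx1
    have h1 := contact_int h.bdd hx hx1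
    rw [hR2, eval_mul] at h1
    rcases mul_eq_zero.1 h1 with h2 | h2
    · simp only [eval_sub, eval_X, eval_C] at h2
      linarith [hx.2]
    · exact h2
  · intro h1
    have h2 := end_one h.bdd h1 hR2 (fun x hx => by
      simp only [eval_sub, eval_X, eval_C]
      linarith [hx.2])
    simp only [eval_pow, eval_sub, eval_X, eval_C]
    nlinarith [mul_nonneg h2 (sq_nonneg (b - 1))]
  · intro x hx
    simp only [eval_sub, eval_X, eval_C]
    linarith [hx.2]
  · intro x hx
    simp only [eval_pow, eval_sub, eval_X, eval_C]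
    positivity
  · rcases eq_or_ne (y - b) 0 with e | e
    · have e' : y = b := by linarith
      have h1 : Tendsto (fun x : ℝ => b - x) (𝓝[<] b) (𝓝 0) := by
        have : Tendsto (fun x : ℝ => b - x) (𝓝 b) (𝓝 (b - b)) :=
          (continuous_const.sub continuous_id).continuousAt
        rw [sub_self] at this
        exact this.mono_left nhdsWithin_le_nhds
      refine h1.congr' ?_
      filter_upwards [self_mem_nhdsWithin] with x hx
      have hx' : x < b := hx
      simp only [eval_pow, eval_sub, eval_X, eval_C, e']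
      rw [pow_two, mul_div_assoc, div_self (by linarith), mul_one]
    · apply lim_zero
      · simp
      · simpa using e
  · intro x hx
    have hx2 := hx.2
    simp only [derivative_pow, derivative_sub, derivative_C, derivative_X,
      eval_mul, eval_pow, eval_sub, eval_X, eval_C, eval_one, eval_zero]
    norm_num
    nlinarith [mul_pos (show 0 < b - x by linarith) (show 0 < 2 * y - x - b by linarith)]

/-- Free left end point: no real critical point `y ≤ -1`. -/
theorem free_le (h : Ext n a b P) (hn : 1 ≤ n) (ha : -1 ≤ a) (hab : a < b)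
    (hf : |P.eval (-1)| ≠ 1) {y : ℝ} (hy : y ≤ -1) (hr : P.derivative.eval y = 0) : False := by
  obtain ⟨R, hR⟩ : X - C y ∣ P.derivative := dvd_iff_isRoot.2 hr
  refine excl' h hn hab (W := (C b - X) ^ 2) (D := X - C y) hR ?_ ?_ ?_
    (fun h1 => absurd h1 hf) ?_ ?_ ?_ ?_
  · rw [natDegree_X_sub_C]
    exact deg_sq b
  · intro x hx hx1
    have h1 := contact_int h.bdd hx hx1
    rw [hR, eval_mul] at h1
    rcases mul_eq_zero.1 h1 with h2 | h2
    · simp only [eval_sub, eval_X, eval_C] at h2
      linarith [hx.1]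
    · exact h2
  · intro h1
    have h2 := end_one h.bdd h1 hR (fun x hx => by
      simp only [eval_sub, eval_X, eval_C]
      linarith [hx.1])
    simp only [eval_pow, eval_sub, eval_X, eval_C]
    nlinarith [mul_nonneg h2 (sq_nonneg (b - 1))]
  · intro x hx
    simp only [eval_sub, eval_X, eval_C]
    linarith [hx.1]
  · intro x hx
    simp only [eval_pow, eval_sub, eval_X, eval_C]
    positivity
  · apply lim_zero
    · simp
    · simp only [eval_sub, eval_X, eval_C]
      linarith
  · intro x hx
    have hx1 := hx.1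
    have hx2 := hx.2
    simp only [derivative_pow, derivative_sub, derivative_C, derivative_X,
      eval_mul, eval_pow, eval_sub, eval_X, eval_C, eval_one, eval_zero]
    norm_num
    nlinarith [mul_pos (show 0 < b - x by linarith) (show 0 < x - y by linarith),
      mul_pos (show 0 < b - x by linarith) (show 0 < b - x by linarith)]

/-- the real quadratic with roots `u ± i v` -/
def quad (u v : ℝ) : ℝ[X] := (X - C u) ^ 2 + C (v ^ 2)

theorem quad_eval (u v x : ℝ) : (quad u v).eval x = (x - u) ^ 2 + v ^ 2 := by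
  simp [quad]

theorem quad_der (u v x : ℝ) : (quad u v).derivative.eval x = 2 * (x - u) := by
  simp [quad, derivative_pow]

theorem quad_deg (u v : ℝ) : (quad u v).natDegree = 2 := by
  unfold quad
  compute_degree!

theorem quad_dvd {p : ℝ[X]} {z : ℂ} (h0 : aeval z p = 0) (hz : z.im ≠ 0) :
    quad z.re z.im ∣ p := by
  have := quadratic_dvd_of_aeval_eq_zero_im_ne_zero p h0 hz
  convert this using 1
  rw [Complex.sq_norm, Complex.normSq_apply, quad]
  simp only [map_add, map_mul, C_pow, C_ofNat]
  ring

/-- Free left end point: no non-real critical point outside the disc over the window. -/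
theorem free_cx (h : Ext n a b P) (hn : 1 ≤ n) (hab : a < b)
    (hf : |P.eval (-1)| ≠ 1) {u v : ℝ} (hv : v ≠ 0)
    (huv : (u - a) * (b - u) ≤ v ^ 2) (hr : quad u v ∣ P.derivative) : False := by
  obtain ⟨R, hR⟩ := hr
  have hv2 : 0 < v ^ 2 := by positivity
  have hpos : ∀ x, 0 < (quad u v).eval x := fun x => by
    rw [quad_eval]
    positivity
  refine excl' h hn hab (W := (C b - X) ^ 2) (D := quad u v) hR ?_ ?_ ?_
    (fun h1 => absurd h1 hf) (fun x _ => hpos x) ?_ ?_ ?_
  · rw [quad_deg]
    exact (deg_sq b).trans (by norm_num)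
  · intro x hx hx1
    have h1 := contact_int h.bdd hx hx1
    rw [hR, eval_mul] at h1
    rcases mul_eq_zero.1 h1 with h2 | h2
    · exact absurd h2 (hpos x).ne'
    · exact h2
  · intro h1
    have h2 := end_one h.bdd h1 hR (fun x _ => hpos x)
    simp only [eval_pow, eval_sub, eval_X, eval_C]
    nlinarith [mul_nonneg h2 (sq_nonneg (b - 1))]
  · intro x hx
    simp only [eval_pow, eval_sub, eval_X, eval_C]
    positivity
  · apply lim_zero
    · simp
    · exact (hpos b).ne'
  · intro x hx
    have hx1 := hx.1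
    have hx2 := hx.2
    rw [quad_eval, quad_der]
    simp only [derivative_pow, derivative_sub, derivative_C, derivative_X,
      eval_mul, eval_pow, eval_sub, eval_X, eval_C, eval_one, eval_zero]
    norm_num
    have key : 0 < (x - u) * (b - u) + v ^ 2 := by
      rcases lt_or_ge u b with h1 | h1
      · nlinarith [mul_pos (show 0 < x - a by linarith) (show 0 < b - u by linarith)]
      · nlinarith [mul_nonneg (show 0 ≤ u - x by linarith) (show 0 ≤ u - b by linarith)]
    nlinarith [mul_pos (show 0 < b - x by linarith) key]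

/-- Pair lemma. -/
theorem pair (h : Ext n a b P) (hn : 1 ≤ n) (hab : a < b) (hw : b - a ≤ 1 + a)
    {D : ℝ[X]} (hD2 : 2 + P.natDegree ≤ D.natDegree + n) (hDv : D ∣ P.derivative)
    (hpos : ∀ x ∈ Ioo (-1 : ℝ) 1, 0 < D.eval x) (hDb : D.eval b ≠ 0) (ha : -1 ≤ a) (hb : b ≤ 1)
    (hc : ∀ x ∈ Ioo a b, 0 ≤ D.eval x + (b - x) * D.derivative.eval x) : False := by
  obtain ⟨R, hR⟩ := hDv
  refine excl h hn hab (W := (C b - X) ^ 2 * (1 + X)) (D := D) hR ?_ ?_ ?_
    ?_ ?_ ?_ ?_ ?_
  · have hW : ((C b - X) ^ 2 * (1 + X) : ℝ[X]).natDegree ≤ 3 := by compute_degree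
    omega
  · intro x hx hx1
    have h1 := contact_int h.bdd hx hx1
    rw [hR, eval_mul] at h1
    rcases mul_eq_zero.1 h1 with h2 | h2
    · exact absurd h2 (hpos x hx).ne'
    · exact h2
  · intro h1
    have h2 := end_one h.bdd h1 hR hpos
    simp only [eval_mul, eval_add, eval_one, eval_pow, eval_sub, eval_X, eval_C]
    nlinarith [mul_nonneg h2 (sq_nonneg (b - 1))]
  · intro _
    simp
  · intro x hx
    exact hpos x ⟨by linarith [hx.1], by linarith [hx.2]⟩
  · intro x hx
    simp only [eval_mul, eval_add, eval_one, eval_pow, eval_sub, eval_X, eval_C]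
    exact mul_nonneg (by positivity) (by linarith [hx.1])
  · apply lim_zero
    · simp
    · exact hDb
  · intro x hx
    have hx1 := hx.1
    have hx2 := hx.2
    have hDx := hpos x ⟨by linarith, by linarith⟩
    have hcx := hc x hx
    simp only [derivative_mul, derivative_add, derivative_one, derivative_pow, derivative_sub,
      derivative_C, derivative_X, eval_add, eval_mul, eval_pow, eval_sub, eval_X, eval_C,
      eval_one, eval_zero]
    norm_num
    have k1 : 0 ≤ (b - x) * (1 + x) * (D.eval x + (b - x) * D.derivative.eval x) :=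
      mul_nonneg (mul_nonneg (by linarith) (by linarith)) hcx
    have k2 : 0 < (b - x) * D.eval x * ((1 + x) - (b - x)) :=
      mul_pos (mul_pos (by linarith) hDx) (by linarith)
    nlinarith

/-- Free left end point: full degree. -/
theorem free_deg (h : Ext n a b P) (hn : 1 ≤ n) (hab : a < b)
    (hf : |P.eval (-1)| ≠ 1) (hd : P.natDegree + 1 ≤ n) : False := by
  refine excl h hn hab (W := (C b - X) ^ 2) (D := 1) (R := P.derivative) (by rw [one_mul])
    ?_ (fun x hx hx1 => contact_int h.bdd hx hx1) ?_ (fun h1 => absurd h1 hf) ?_ ?_ ?_ ?_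
  · have := deg_sq b
    rw [natDegree_one]
    omega
  · intro h1
    have h2 := end_one h.bdd h1 (D := 1) (R := P.derivative) (by rw [one_mul]) (fun x _ => by simp)
    simp only [eval_pow, eval_sub, eval_X, eval_C]
    nlinarith [mul_nonneg h2 (sq_nonneg (b - 1))]
  · intro x _
    simp
  · intro x hx
    simp only [eval_pow, eval_sub, eval_X, eval_C]
    positivity
  · apply lim_zero <;> simp
  · intro x hx
    simp only [derivative_pow, derivative_sub, derivative_C, derivative_X, derivative_one,
      eval_mul, eval_pow, eval_sub, eval_X, eval_C, eval_one, eval_zero]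
    norm_num
    nlinarith [hx.2]

/-- Degree at least `n - 1`. -/
theorem deg_two (h : Ext n a b P) (hn : 1 ≤ n) (hab : a < b) (hw : b - a ≤ 1 + a)
    (ha : -1 ≤ a) (hb : b ≤ 1) (hd : P.natDegree + 2 ≤ n) : False := by
  refine pair h hn hab hw (D := 1) ?_ (one_dvd _) (fun x _ => by simp) (by simp) ha hb ?_
  · rw [natDegree_one]
    omega
  · intro x hx
    simp

/-- Degree `n - 1` and a critical point to the left. -/
theorem deg_one_le (h : Ext n a b P) (hn : 1 ≤ n) (hab : a < b) (hw : b - a ≤ 1 + a)
    (ha : -1 ≤ a) (hb : b ≤ 1) (hd : P.natDegree + 1 ≤ n) {y : ℝ} (hy : y ≤ -1)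
    (hr : P.derivative.eval y = 0) : False := by
  refine pair h hn hab hw (D := X - C y) ?_ (dvd_iff_isRoot.2 hr) ?_ ?_ ha hb ?_
  · rw [natDegree_X_sub_C]
    omega
  · intro x hx
    simp only [eval_sub, eval_X, eval_C]
    linarith [hx.1]
  · simp only [eval_sub, eval_X, eval_C]
    linarith
  · intro x hx
    simp only [derivative_sub, derivative_C, derivative_X, eval_sub, eval_X, eval_C, eval_one,
      eval_zero]
    linarith [hx.1, hx.2]

/-- Degree `n - 1` and a critical point to the right. -/
theorem deg_one_ge (h : Ext n a b P) (hn : 1 ≤ n) (hab : a < b) (hw : b - a ≤ 1 + a)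
    (ha : -1 ≤ a) (hb : b < 1) (hd : P.natDegree + 1 ≤ n) {y : ℝ} (hy : 1 ≤ y)
    (hr : P.derivative.eval y = 0) : False := by
  have hdv : (C y - X) ∣ P.derivative := by
    rw [← neg_sub]
    exact neg_dvd.2 (dvd_iff_isRoot.2 hr)
  refine pair h hn hab hw (D := C y - X) ?_ hdv ?_ ?_ ha hb.le ?_
  · have : (C y - X : ℝ[X]).natDegree = 1 := by
      rw [← neg_sub, natDegree_neg, natDegree_X_sub_C]
    rw [this]
    omega
  · intro x hx
    simp only [eval_sub, eval_X, eval_C]
    linarith [hx.2]
  · simp only [eval_sub, eval_X, eval_C]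
    linarith
  · intro x hx
    simp only [derivative_sub, derivative_C, derivative_X, eval_sub, eval_X, eval_C, eval_one,
      eval_zero]
    linarith [hx.1, hx.2]

theorem pair_cx (h : Ext n a b P) (hn : 1 ≤ n) (hab : a < b) (hw : b - a ≤ 1 + a)
    (ha : -1 ≤ a) (hb : b ≤ 1) {u v : ℝ} (hv : v ≠ 0)
    (huv : (b - a) ^ 2 ≤ (b - u) ^ 2 + v ^ 2) (hr : quad u v ∣ P.derivative) : False := by
  have hv2 : 0 < v ^ 2 := by positivity
  have hpos : ∀ x, 0 < (quad u v).eval x := fun x => by
    rw [quad_eval]
    positivity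
  have hPd : P.natDegree ≤ n := natDegree_le_of_degree_le h.deg
  refine pair h hn hab hw (by rw [quad_deg]; omega) hr (fun x _ => hpos x) (hpos b).ne' ha hb ?_
  intro x hx
  have hx1 := hx.1
  have hx2 := hx.2
  rw [quad_eval, quad_der]
  nlinarith [mul_pos (show 0 < x - a by linarith) (show 0 < 2 * b - a - x by linarith)]

theorem pair_le (h : Ext n a b P) (hn : 1 ≤ n) (hab : a < b) (hw : b - a ≤ 1 + a)
    (ha : -1 ≤ a) (hb : b ≤ 1) {y z : ℝ} (hy : y ≤ -1) (hz : z ≤ -1)
    (hr : (X - C y) * (X - C z) ∣ P.derivative) : False := by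
  have hPd : P.natDegree ≤ n := natDegree_le_of_degree_le h.deg
  refine pair h hn hab hw ?_ hr ?_ ?_ ha hb ?_
  · rw [natDegree_mul (X_sub_C_ne_zero y) (X_sub_C_ne_zero z), natDegree_X_sub_C,
      natDegree_X_sub_C]
    omega
  · intro x hx
    simp only [eval_mul, eval_sub, eval_X, eval_C]
    exact mul_pos (by linarith [hx.1]) (by linarith [hx.1])
  · simp only [eval_mul, eval_sub, eval_X, eval_C]
    exact (mul_pos (by linarith) (by linarith)).ne'
  · intro x hx
    have hx1 := hx.1
    have hx2 := hx.2
    simp only [derivative_mul, derivative_sub, derivative_C, derivative_X, eval_add, eval_mul,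
      eval_sub, eval_X, eval_C, eval_one, eval_zero]
    have k1 : 0 ≤ (x - y) * (x - z) := mul_nonneg (by linarith) (by linarith)
    have k2 : 0 ≤ (b - x) * ((x - y) + (x - z)) := mul_nonneg (by linarith) (by linarith)
    nlinarith

theorem pair_mixed (h : Ext n a b P) (hn : 1 ≤ n) (hab : a < b) (hw : b - a ≤ 1 + a)
    (ha : -1 ≤ a) (hb : b < 1) {y z : ℝ} (hy : y ≤ -1) (hz : 1 ≤ z)
    (hr : (X - C y) * (X - C z) ∣ P.derivative) : False := by
  have hr' : (X - C y) * (C z - X) ∣ P.derivative := by
    have e : (X - C y) * (C z - X) = -((X - C y) * (X - C z)) := by ring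
    rw [e]
    exact neg_dvd.2 hr
  refine pair h hn hab hw ?_ hr' ?_ ?_ ha hb.le ?_
  · have e : (X - C y) * (C z - X) = -((X - C y) * (X - C z)) := by ring
    have hPd : P.natDegree ≤ n := natDegree_le_of_degree_le h.deg
    rw [e, natDegree_neg, natDegree_mul (X_sub_C_ne_zero y) (X_sub_C_ne_zero z),
      natDegree_X_sub_C, natDegree_X_sub_C]
    omega
  · intro x hx
    simp only [eval_mul, eval_sub, eval_X, eval_C]
    exact mul_pos (by linarith [hx.1]) (by linarith [hx.2])
  · simp only [eval_mul, eval_sub, eval_X, eval_C]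
    exact (mul_pos (by linarith) (by linarith)).ne'
  · intro x hx
    have hx1 := hx.1
    have hx2 := hx.2
    simp only [derivative_mul, derivative_sub, derivative_C, derivative_X, eval_add, eval_mul,
      eval_sub, eval_X, eval_C, eval_one, eval_zero]
    have k1 : 0 ≤ (x - y) * (z - b) := mul_nonneg (by linarith) (by linarith)
    have k2 : 0 ≤ (b - x) * (z - x) := mul_nonneg (by linarith) (by linarith)
    nlinarith

/-! Reflection. -/

theorem comp_der (P : ℝ[X]) : (P.comp (-X)).derivative = -(P.derivative.comp (-X)) := by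
  rw [derivative_comp]
  simp

theorem comp_der_eval (P : ℝ[X]) (x : ℝ) :
    (P.comp (-X)).derivative.eval x = -(P.derivative.eval (-x)) := by
  rw [comp_der]
  simp

theorem comp_eval (P : ℝ[X]) (x : ℝ) : (P.comp (-X)).eval x = P.eval (-x) := by
  simp

theorem arc_refl (P : ℝ[X]) (a b : ℝ) : arc (-b) (-a) (P.comp (-X)) = arc a b P := by
  unfold arc
  have : (fun x => √(1 + ((P.comp (-X)).derivative.eval x) ^ 2)) =
      fun x => (fun y => √(1 + (P.derivative.eval y) ^ 2)) (-x) := by
    funext x
    simp only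
    rw [comp_der_eval, neg_sq]
  rw [this, intervalIntegral.integral_comp_neg (fun y => √(1 + (P.derivative.eval y) ^ 2))]
  simp

theorem comp_comp (P : ℝ[X]) : (P.comp (-X)).comp (-X) = P := by
  rw [comp_assoc]
  simp

theorem bdd_refl (hP : Bdd P) : Bdd (P.comp (-X)) := by
  intro x hx
  rw [comp_eval]
  exact hP (-x) ⟨by linarith [hx.2], by linarith [hx.1]⟩

theorem deg_refl (P : ℝ[X]) : (P.comp (-X)).degree ≤ P.degree := by
  by_cases h0 : P.comp (-X) = 0
  · rw [h0, degree_zero]
    exact bot_le
  · have hP : P ≠ 0 := fun h => h0 (by rw [h, zero_comp])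
    rw [degree_eq_natDegree h0, degree_eq_natDegree hP]
    have := natDegree_comp_le (p := P) (q := -X)
    rw [natDegree_neg, natDegree_X, mul_one] at this
    exact_mod_cast this

theorem ext_refl (h : Ext n a b P) : Ext n (-b) (-a) (P.comp (-X)) where
  deg := (deg_refl P).trans h.deg
  bdd := bdd_refl h.bdd
  max := fun Q hQ hQb => by
    have h1 := h.max (Q.comp (-X)) ((deg_refl Q).trans hQ) (bdd_refl hQb)
    have h2 := arc_refl (Q.comp (-X)) a b
    rw [comp_comp] at h2
    rw [arc_refl, h2]
    exact h1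

end

end Pool.Agent.Helper40.AS
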