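import Pool.Agent.Helper40.AS.Final
import Pool.Agent.Helper40.Arc.Poly

/-!
Comparison polynomials with a large derivative at a prescribed point, and Bernstein type bounds.
-/

set_option autoImplicit false

namespace Pool.Agent.Helper40.AS

open Polynomial Set Real

noncomputable section

/-- comparison polynomial -/
def cmp (k : ℕ) (p r : ℝ) : ℝ[X] :=
  C p * Chebyshev.T ℝ ((k : ℤ) + 1) - C r * (Chebyshev.U ℝ (k : ℤ) * (1 - X ^ 2))

theorem cmp_eval (k : ℕ) (p r θ : ℝ) : (cmp k p r).eval (cos θ) =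
    p * cos ((k + 1) * θ) - r * (sin ((k + 1) * θ) * sin θ) := by
  have h1 := Chebyshev.T_real_cos θ ((k : ℤ) + 1)
  have h2 := Chebyshev.U_real_cos θ (k : ℤ)
  push_cast at h1 h2
  simp only [cmp, eval_sub, eval_mul, eval_C, eval_one, eval_pow, eval_X]
  rw [h1, show (1 : ℝ) - cos θ ^ 2 = sin θ * sin θ by
    have := sin_sq_add_cos_sq θ
    linarith, ← mul_assoc (eval (cos θ) (Chebyshev.U ℝ (k : ℤ))), h2]

theorem cmp_deg (k : ℕ) (p r : ℝ) : (cmp k p r).degree ≤ ((k + 2 : ℕ) : WithBot ℕ) := by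
  apply degree_le_of_natDegree_le
  unfold cmp
  refine (natDegree_sub_le _ _).trans (max_le ?_ ?_)
  · refine (natDegree_C_mul_le _ _).trans ?_
    rw [Chebyshev.natDegree_T]
    omega
  · refine (natDegree_C_mul_le _ _).trans (natDegree_mul_le.trans ?_)
    have h1 : (1 - X ^ 2 : ℝ[X]).natDegree ≤ 2 := by compute_degree
    have h2 : (Chebyshev.U ℝ (k : ℤ)).natDegree = k := Chebyshev.natDegree_U_natCast ℝ k
    omega

theorem cmp_bdd (k : ℕ) {p r : ℝ} (h : p ^ 2 + r ^ 2 ≤ 1) : Bdd (cmp k p r) := by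
  intro x hx
  obtain ⟨θ, rfl⟩ : ∃ θ, cos θ = x := ⟨arccos x, cos_arccos hx.1 hx.2⟩
  rw [cmp_eval]
  have h1 := sin_sq_add_cos_sq ((k + 1) * θ)
  have h2 : sin θ ^ 2 ≤ 1 := sin_sq_le_one θ
  set c := cos ((k + 1) * θ)
  set s := sin ((k + 1) * θ)
  rw [← sq_le_one_iff_abs_le_one]
  have h3 : (p * c - r * (s * sin θ)) ^ 2 ≤ (p ^ 2 + r ^ 2) * (c ^ 2 + (s * sin θ) ^ 2) := by
    nlinarith [sq_nonneg (p * (s * sin θ) + r * c)]
  have h4 : c ^ 2 + (s * sin θ) ^ 2 ≤ 1 := by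
    nlinarith [mul_nonneg (sq_nonneg s) (sub_nonneg.2 h2)]
  have h5 : 0 ≤ c ^ 2 + (s * sin θ) ^ 2 := by positivity
  nlinarith

theorem eval_cos_deriv (P : ℝ[X]) (θ : ℝ) :
    HasDerivAt (fun θ => P.eval (cos θ)) (-(sin θ * P.derivative.eval (cos θ))) θ := by
  have := (P.hasDerivAt (cos θ)).comp θ (hasDerivAt_cos θ)
  refine (this.congr_deriv ?_)
  ring

theorem cmp_der (k : ℕ) (p r θ : ℝ) : sin θ * (cmp k p r).derivative.eval (cos θ) =
    p * ((k + 1) * sin ((k + 1) * θ)) +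
      r * ((k + 1) * (cos ((k + 1) * θ) * sin θ) + sin ((k + 1) * θ) * cos θ) := by
  have h1 := eval_cos_deriv (cmp k p r) θ
  have h0 : HasDerivAt (fun θ : ℝ => ((k : ℝ) + 1) * θ) ((k : ℝ) + 1) θ := by
    simpa using (hasDerivAt_id θ).const_mul ((k : ℝ) + 1)
  have h2 : HasDerivAt (fun θ : ℝ => p * cos ((k + 1) * θ) -
      r * (sin ((k + 1) * θ) * sin θ)) (p * (-sin ((k + 1) * θ) * (k + 1)) -
      r * (cos ((k + 1) * θ) * (k + 1) * sin θ + sin ((k + 1) * θ) * cos θ)) θ :=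
    (h0.cos.const_mul p).sub ((h0.sin.mul (hasDerivAt_sin θ)).const_mul r)
  have e : (fun θ => (cmp k p r).eval (cos θ)) = fun θ : ℝ => p * cos ((k + 1) * θ) -
      r * (sin ((k + 1) * θ) * sin θ) := by
    funext t
    exact cmp_eval k p r t
  rw [e] at h1
  have h3 := h1.unique h2
  linarith

/-- the comparison polynomial can be chosen with large slope -/
theorem cmp_exists (k : ℕ) {θ : ℝ} (hs : 0 < sin θ) :
    ∃ p r : ℝ, p ^ 2 + r ^ 2 ≤ 1 ∧
      (k + 1 : ℝ) ^ 2 - (k + 1) / sin θ ≤ ((cmp k p r).derivative.eval (cos θ)) ^ 2 := by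
  set m : ℝ := (k : ℝ) + 1 with hm
  have hm0 : 0 < m := by positivity
  set S := sin (m * θ) with hS
  set K := cos (m * θ) with hK
  set s := sin θ with hs'
  set c := cos θ with hc'
  have e1 : S ^ 2 + K ^ 2 = 1 := sin_sq_add_cos_sq _
  have e2 : s ^ 2 + c ^ 2 = 1 := sin_sq_add_cos_sq _
  set A := m * S with hA
  set B := m * (K * s) + S * c with hB
  have hc1 : |c| ≤ 1 := abs_cos_le_one θ
  have hSK : |S * K| ≤ 1 / 2 := by
    rw [abs_le]
    constructor <;> nlinarith [sq_nonneg (S + K), sq_nonneg (S - K)]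
  have hs1 : s ≤ 1 := sin_le_one θ
  have key : m ^ 2 * s ^ 2 - m * s ≤ A ^ 2 + B ^ 2 := by
    have h1 : A ^ 2 + B ^ 2 = m ^ 2 * (S ^ 2 + K ^ 2 * s ^ 2) + 2 * m * s * c * (S * K) +
        (S * c) ^ 2 := by
      rw [hA, hB]
      ring
    have h2 : -(1 / 2) ≤ c * (S * K) := by
      have : |c * (S * K)| ≤ 1 / 2 := by
        rw [abs_mul]
        nlinarith [abs_nonneg c, abs_nonneg (S * K)]
      exact (abs_le.1 this).1
    have h3 : m ^ 2 * s ^ 2 ≤ m ^ 2 * (S ^ 2 + K ^ 2 * s ^ 2) := by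
      apply mul_le_mul_of_nonneg_left _ (by positivity)
      have h4 : s ^ 2 ≤ 1 := by nlinarith
      nlinarith [mul_nonneg (sq_nonneg S) (sub_nonneg.2 h4)]
    have h5 : -(m * s) ≤ 2 * m * s * c * (S * K) := by
      have := mul_le_mul_of_nonneg_left h2 (show 0 ≤ 2 * (m * s) by positivity)
      nlinarith
    nlinarith [sq_nonneg (S * c)]
  have hgoal : ∀ D : ℝ, s ^ 2 * D ^ 2 = A ^ 2 + B ^ 2 →
      m ^ 2 - m / s ≤ D ^ 2 := by
    intro D hD
    have h1 : m ^ 2 - m / s = (m ^ 2 * s ^ 2 - m * s) / s ^ 2 := by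
      field_simp
    rw [h1, div_le_iff₀ (by positivity)]
    linarith
  rcases eq_or_lt_of_le (show 0 ≤ A ^ 2 + B ^ 2 by positivity) with h0 | h0
  · refine ⟨1, 0, by norm_num, ?_⟩
    have h1 := cmp_der k 1 0 θ
    rw [← hm, ← hs', ← hS] at h1
    have hA0 : A = 0 := by nlinarith [sq_nonneg A, sq_nonneg B]
    apply hgoal
    rw [← mul_pow, h1, ← h0]
    rw [hA] at hA0
    rw [hA0]
    ring
  · set N := √(A ^ 2 + B ^ 2) with hN
    have hN0 : 0 < N := Real.sqrt_pos.2 h0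
    have hN2 : N ^ 2 = A ^ 2 + B ^ 2 := Real.sq_sqrt h0.le
    refine ⟨A / N, B / N, ?_, ?_⟩
    · rw [div_pow, div_pow, ← add_div, ← hN2, div_self (by positivity)]
    · have h1 := cmp_der k (A / N) (B / N) θ
      rw [← hm, ← hs', ← hS, ← hK, ← hc'] at h1
      have h2 : A / N * (m * S) + B / N * (m * (K * s) + S * c) = N := by
        rw [← hA, ← hB, div_mul_eq_mul_div, div_mul_eq_mul_div, ← add_div,
          div_eq_iff hN0.ne']
        nlinarith
      rw [h2] at h1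
      apply hgoal
      rw [← mul_pow, h1, hN2]

/-- Bernstein inequalities in the variable `x`. -/
theorem bern {n : ℕ} (hn : 1 ≤ n) {P : ℝ[X]} (hdeg : P.natDegree ≤ n) (hb : Bdd P) (θ : ℝ) :
    |sin θ * P.derivative.eval (cos θ)| ≤ n ∧
      |sin θ ^ 2 * P.derivative.derivative.eval (cos θ) - cos θ * P.derivative.eval (cos θ)| ≤
        n ^ 2 := by
  have hn0 : (0 : ℝ) < n := by exact_mod_cast hn
  have hf' : ∀ θ : ℝ, HasDerivAt (fun θ => -(sin θ * P.derivative.eval (cos θ)))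
      (sin θ ^ 2 * P.derivative.derivative.eval (cos θ) -
        cos θ * P.derivative.eval (cos θ)) θ := by
    intro θ
    have h1 := (P.derivative.hasDerivAt (cos θ)).comp θ (hasDerivAt_cos θ)
    have h2 := ((hasDerivAt_sin θ).mul h1).neg
    refine (h2.congr_deriv ?_)
    simp only [Function.comp_apply]
    ring
  have hbs := Arc.bs_both hn (Arc.FF_natDegree n P) (fun θ => Arc.FF_eval hdeg θ)
    (eval_cos_deriv P) hf' (fun θ => hb _ ⟨neg_one_le_cos θ, cos_le_one θ⟩) θ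
  constructor
  · refine abs_le_of_sq_le_sq ?_ hn0.le
    nlinarith [hbs.1, sq_nonneg ((n : ℝ) * P.eval (cos θ))]
  · refine abs_le_of_sq_le_sq ?_ (by positivity)
    have := hbs.2
    nlinarith [sq_nonneg ((n : ℝ) * -(sin θ * P.derivative.eval (cos θ)))]

end

end Pool.Agent.Helper40.AS
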