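import Pool.Agent.Helper40.AS.Short

/-!
Short windows: no non-real critical points near the window.
-/

set_option autoImplicit false

namespace Pool.Agent.Helper40.AS

open Polynomial Set

noncomputable section

/-- the complex polynomial belonging to `sin θ * h (cos θ)` -/
def SF (n : ℕ) (h : ℝ[X]) : ℂ[X] :=
  C (1 / (2 * Complex.I)) * ((X ^ 2 - 1) * Arc.FF (n - 1) h)

theorem SF_eval {n : ℕ} (hn : 1 ≤ n) {h : ℝ[X]} (hh : h.natDegree ≤ n - 1) (θ : ℝ) :
    (SF n h).eval (Complex.exp (θ * Complex.I)) =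
      Complex.exp (n * θ * Complex.I) * ((Real.sin θ * h.eval (Real.cos θ) : ℝ) : ℂ) := by
  have h1 := Arc.FF_eval hh θ
  set z : ℂ := Complex.exp (θ * Complex.I) with hz
  have hz0 : z ≠ 0 := Complex.exp_ne_zero _
  have hzi : Complex.exp (-(θ : ℂ) * Complex.I) = z⁻¹ := by
    rw [hz, ← Complex.exp_neg]
    congr 1
    ring
  have h2 : z ^ 2 - 1 = 2 * Complex.I * z * Complex.sin θ := by
    rw [Complex.sin, ← hz, hzi]
    have hI : Complex.I * Complex.I = -1 := Complex.I_mul_I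
    field_simp
    linear_combination (-(1 - z ^ 2)) * hI
  have h3 : Complex.exp (n * θ * Complex.I) =
      z * Complex.exp (((n - 1 : ℕ) : ℂ) * θ * Complex.I) := by
    rw [hz, ← Complex.exp_add]
    congr 1
    have : (n : ℂ) = ((n - 1 : ℕ) : ℂ) + 1 := by
      have : n = (n - 1) + 1 := by omega
      exact_mod_cast congrArg (Nat.cast : ℕ → ℂ) this
    rw [this]
    ring
  rw [SF, eval_mul, eval_C, eval_mul, eval_sub, eval_pow, eval_X, eval_one, h1, h2, h3]
  push_cast
  have hI : (Complex.I : ℂ) ≠ 0 := Complex.I_ne_zero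
  field_simp

theorem SF_natDegree {n : ℕ} (hn : 1 ≤ n) (h : ℝ[X]) : (SF n h).natDegree ≤ 2 * n := by
  refine (natDegree_C_mul_le _ _).trans (natDegree_mul_le.trans ?_)
  have h1 : (X ^ 2 - 1 : ℂ[X]).natDegree ≤ 2 := by compute_degree
  have h2 := Arc.FF_natDegree (n - 1) h
  omega

/-- Bernstein inequalities for `sin θ * h (cos θ)`. -/
theorem bern_sin {n : ℕ} (hn : 1 ≤ n) {h : ℝ[X]} (hh : h.natDegree ≤ n - 1)
    (hb : ∀ θ : ℝ, |Real.sin θ * h.eval (Real.cos θ)| ≤ n) (θ : ℝ) :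
    |Real.cos θ * h.eval (Real.cos θ) - Real.sin θ ^ 2 * h.derivative.eval (Real.cos θ)| ≤
      (n : ℝ) ^ 2 ∧
    |-(Real.sin θ * h.eval (Real.cos θ)) -
        3 * Real.sin θ * Real.cos θ * h.derivative.eval (Real.cos θ) +
        Real.sin θ ^ 3 * h.derivative.derivative.eval (Real.cos θ)| ≤ (n : ℝ) ^ 3 := by
  have hn0 : (0 : ℝ) < n := by exact_mod_cast hn
  have hf : ∀ θ : ℝ, HasDerivAt (fun θ => Real.sin θ * h.eval (Real.cos θ) / n)
      ((Real.cos θ * h.eval (Real.cos θ) -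
        Real.sin θ ^ 2 * h.derivative.eval (Real.cos θ)) / n) θ := by
    intro θ
    have h1 := ((Real.hasDerivAt_sin θ).mul (eval_cos_deriv h θ)).div_const (n : ℝ)
    refine h1.congr_deriv ?_
    ring
  have hf' : ∀ θ : ℝ, HasDerivAt (fun θ => (Real.cos θ * h.eval (Real.cos θ) -
        Real.sin θ ^ 2 * h.derivative.eval (Real.cos θ)) / n)
      ((-(Real.sin θ * h.eval (Real.cos θ)) -
        3 * Real.sin θ * Real.cos θ * h.derivative.eval (Real.cos θ) +
        Real.sin θ ^ 3 * h.derivative.derivative.eval (Real.cos θ)) / n) θ := by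
    intro θ
    have h1 := (Real.hasDerivAt_cos θ).mul (eval_cos_deriv h θ)
    have h2 := ((Real.hasDerivAt_sin θ).pow 2).mul (eval_cos_deriv h.derivative θ)
    have h3 := (h1.sub h2).div_const (n : ℝ)
    refine h3.congr_deriv ?_
    simp only [Pi.pow_apply]
    push_cast
    ring
  have hF : ∀ θ : ℝ, (C (1 / (n : ℂ)) * SF n h).eval (Complex.exp (θ * Complex.I)) =
      Complex.exp (n * θ * Complex.I) * ((Real.sin θ * h.eval (Real.cos θ) / n : ℝ) : ℂ) := by
    intro θ
    rw [eval_mul, eval_C, SF_eval hn hh]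
    push_cast
    ring
  have hbs := Arc.bs_both hn (F := C (1 / (n : ℂ)) * SF n h)
    ((natDegree_C_mul_le _ _).trans (SF_natDegree hn h)) hF hf hf' (fun θ => by
      rw [abs_div, abs_of_pos hn0, div_le_one hn0]
      exact hb θ) θ
  constructor
  · have h1 := hbs.1
    have h2 : ((Real.cos θ * h.eval (Real.cos θ) -
        Real.sin θ ^ 2 * h.derivative.eval (Real.cos θ)) / n) ^ 2 ≤ (n : ℝ) ^ 2 := by
      nlinarith [sq_nonneg ((n : ℝ) * (Real.sin θ * h.eval (Real.cos θ) / n))]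
    have h3 := abs_le_of_sq_le_sq h2 hn0.le
    rw [abs_div, abs_of_pos hn0, div_le_iff₀ hn0] at h3
    linarith
  · have h1 := hbs.2
    have h2 : ((-(Real.sin θ * h.eval (Real.cos θ)) -
        3 * Real.sin θ * Real.cos θ * h.derivative.eval (Real.cos θ) +
        Real.sin θ ^ 3 * h.derivative.derivative.eval (Real.cos θ)) / n) ^ 2 ≤
          ((n : ℝ) ^ 2) ^ 2 := by
      nlinarith [sq_nonneg ((n : ℝ) * ((Real.cos θ * h.eval (Real.cos θ) -
        Real.sin θ ^ 2 * h.derivative.eval (Real.cos θ)) / n))]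
    have h3 := abs_le_of_sq_le_sq h2 (by positivity)
    rw [abs_div, abs_of_pos hn0, div_le_iff₀ hn0] at h3
    linarith

/-- bound for the second derivative of `h` -/
theorem h2_bound {n : ℕ} (hn : 1 ≤ n) {h : ℝ[X]} (hh : h.natDegree ≤ n - 1)
    (hb : ∀ θ : ℝ, |Real.sin θ * h.eval (Real.cos θ)| ≤ n)
    {σ x : ℝ} (h1 : -1 ≤ x) (h2 : x ≤ 1) (hσ : 0 < σ) (hs : σ ^ 2 ≤ 1 - x ^ 2)
    (hnσ : 20 ≤ n * σ) :
    |h.derivative.derivative.eval x| ≤ 29 / 25 * n ^ 3 / σ ^ 3 := by
  obtain ⟨e1, e2, e3⟩ := arccos_facts h1 h2 hσ.le hs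
  have hB := bern_sin hn hh hb (Real.arccos x)
  have hB0 := hb (Real.arccos x)
  rw [e1] at hB hB0
  set s := Real.sin (Real.arccos x) with hs'
  obtain ⟨hB1, hB2⟩ := hB
  have hn0 : (0 : ℝ) < n := by exact_mod_cast hn
  have hs0 : 0 < s := hσ.trans_le e2
  have hns : 20 ≤ n * s := hnσ.trans (mul_le_mul_of_nonneg_left e2 hn0.le)
  have hn20 : (20 : ℝ) ≤ n := by nlinarith
  set A := h.eval x
  set D := h.derivative.eval x
  set E := h.derivative.derivative.eval x
  have hx1 : |x| ≤ 1 := abs_le.2 ⟨h1, h2⟩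
  have hA : s * |A| ≤ n := by
    rwa [abs_mul, abs_of_pos hs0] at hB0
  have hA' : |A| ≤ n ^ 2 / 20 := by
    have h4 : 20 * |A| ≤ n * s * |A| := mul_le_mul_of_nonneg_right hns (abs_nonneg _)
    nlinarith
  have hD : s ^ 2 * |D| ≤ 21 / 20 * n ^ 2 := by
    have h5 : |s ^ 2 * D| ≤ n ^ 2 + |x * A| := by
      have : s ^ 2 * D = -(x * A - s ^ 2 * D) + x * A := by ring
      rw [this]
      exact (abs_add_le _ _).trans (by rw [abs_neg]; linarith)
    rw [abs_mul, abs_mul, abs_of_pos (by positivity : (0 : ℝ) < s ^ 2)] at h5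
    nlinarith [abs_nonneg A, abs_nonneg x]
  have hD' : s * |D| ≤ 21 / 400 * n ^ 3 := by
    have h4 : 20 * (s * |D|) ≤ n * s * (s * |D|) :=
      mul_le_mul_of_nonneg_right hns (by positivity)
    nlinarith
  have hE : s ^ 3 * |E| ≤ 29 / 25 * n ^ 3 := by
    have h5 : |s ^ 3 * E| ≤ n ^ 3 + (|s * A| + |3 * s * x * D|) := by
      have : s ^ 3 * E = (-(s * A) - 3 * s * x * D + s ^ 3 * E) + (s * A + 3 * s * x * D) := by
        ring
      rw [this]
      refine (abs_add_le _ _).trans ?_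
      have := abs_add_le (s * A) (3 * s * x * D)
      linarith
    rw [abs_mul, abs_mul, abs_of_pos (by positivity : (0 : ℝ) < s ^ 3), abs_of_pos hs0] at h5
    have h6 : |3 * s * x * D| ≤ 3 * (s * |D|) := by
      rw [abs_mul, abs_mul, abs_of_pos (by positivity : (0 : ℝ) < 3 * s)]
      have : 3 * s * |x| * |D| = 3 * (s * |D|) * |x| := by ring
      rw [this]
      have : 0 ≤ 3 * (s * |D|) := by positivity
      nlinarith
    have h7 : (n : ℝ) ≤ n ^ 3 / 400 := by nlinarith [mul_nonneg hn0.le (sq_nonneg ((n : ℝ) - 20)), mul_nonneg hn0.le (sub_nonneg.2 hn20)]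
    linarith
  rw [le_div_iff₀ (by positivity)]
  have h6 : σ ^ 3 ≤ s ^ 3 := pow_le_pow_left₀ hσ.le e2 3
  nlinarith [abs_nonneg E]

variable {n : ℕ} {a b σ : ℝ}

theorem Win.cx_case (h : Win n a b σ) {P : ℝ[X]} (hP : Ext n a b P) {u v : ℝ}
    (hu : u ∈ Icc a b) (hv : |v| ≤ b - a) : ¬ quad u v ∣ P.derivative := by
  rintro ⟨R, hR⟩
  have hPd : P.natDegree ≤ n := natDegree_le_of_degree_le hP.deg
  have hn20 : (20 : ℝ) ≤ n := by exact_mod_cast h.hn
  have hn1 : 1 ≤ n := by have := h.hn; omega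
  set H : ℝ[X] := (X - C u) ^ 2 * R with hH
  have hHe : ∀ x, H.eval x = (x - u) ^ 2 * R.eval x := fun x => by simp [hH]
  have hPe : ∀ x, P.derivative.eval x = ((x - u) ^ 2 + v ^ 2) * R.eval x := fun x => by
    rw [hR, eval_mul, quad_eval]
  have hHP : ∀ x, |H.eval x| ≤ |P.derivative.eval x| := by
    intro x
    rw [hHe, hPe, abs_mul, abs_mul, abs_of_nonneg (sq_nonneg _),
      abs_of_nonneg (by positivity : 0 ≤ (x - u) ^ 2 + v ^ 2)]
    exact mul_le_mul_of_nonneg_right (by nlinarith [sq_nonneg v]) (abs_nonneg _)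
  have hHd : H.natDegree ≤ n - 1 := by
    rcases eq_or_ne R 0 with h0 | h0
    · rw [hH, h0, mul_zero, natDegree_zero]
      exact Nat.zero_le _
    · have e1 : P.derivative.natDegree = 2 + R.natDegree := by
        rw [hR, natDegree_mul (by
          intro h1
          have := quad_deg u v
          rw [h1, natDegree_zero] at this
          omega) h0, quad_deg]
      have e2 : P.derivative.natDegree ≤ P.natDegree - 1 := natDegree_derivative_le P
      have e3 : ((X - C u) ^ 2 : ℝ[X]).natDegree ≤ 2 := by compute_degree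
      have e4 : H.natDegree ≤ 2 + R.natDegree := by
        refine natDegree_mul_le.trans ?_
        omega
      omega
  have hHb : ∀ θ : ℝ, |Real.sin θ * H.eval (Real.cos θ)| ≤ n := by
    intro θ
    have h1 := (bern hn1 hPd hP.bdd θ).1
    rw [abs_mul] at h1 ⊢
    exact (mul_le_mul_of_nonneg_left (hHP _) (abs_nonneg _)).trans h1
  set M : ℝ := 29 / 25 * n ^ 3 / σ ^ 3 with hM
  have hM0 : 0 ≤ M := by
    have := h.hσ
    positivity
  have hM2 : ∀ x ∈ Icc a b, |H.derivative.derivative.eval x| ≤ M := fun x hx =>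
    h2_bound hn1 hHd hHb (h.ha.trans hx.1) (hx.2.trans h.hb) h.hσ (h.hs x hx) h.hnσ
  have hH0 : H.eval u = 0 := by simp [hHe]
  have hH1 : H.derivative.eval u = 0 := by
    simp [hH, derivative_mul, derivative_pow]
  have hH2 : H.derivative.derivative.eval u = 2 * R.eval u := by
    simp [hH, derivative_mul, derivative_pow]
  have hl1 : ∀ x ∈ Icc a b, |H.derivative.eval x| ≤ M * |x - u| := by
    intro x hx
    have := der_lip (f := H.derivative) hM2 hu hx
    rwa [hH1, sub_zero] at this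
  have hl2 : ∀ x ∈ Icc a b, |H.eval x| ≤ M * |x - u| * |x - u| := by
    intro x hx
    have hsub : uIcc u x ⊆ Icc a b := uIcc_subset_Icc hu hx
    have hM3 : ∀ y ∈ Icc (min u x) (max u x), |H.derivative.eval y| ≤ M * |x - u| := by
      intro y hy
      have hy' : y ∈ uIcc u x := hy
      have h3 : |y - u| ≤ |x - u| := abs_sub_left_of_mem_uIcc hy'
      exact (hl1 y (hsub hy')).trans (mul_le_mul_of_nonneg_left h3 hM0)
    have := der_lip (f := H) hM3 (x := u) (y := x) ⟨min_le_left _ _, le_max_left _ _⟩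
      ⟨min_le_right _ _, le_max_right _ _⟩
    rwa [hH0, sub_zero] at this
  have hRb : ∀ x ∈ Icc a b, |R.eval x| ≤ M := by
    intro x hx
    rcases eq_or_ne x u with e | e
    · have h3 := hM2 u hu
      rw [hH2, abs_mul, abs_of_pos (by norm_num : (0 : ℝ) < 2)] at h3
      rw [e]
      linarith [abs_nonneg (R.eval u)]
    · have h3 := hl2 x hx
      have h4 : 0 < |x - u| := abs_pos.2 (sub_ne_zero.2 e)
      rw [hHe, abs_mul, abs_of_nonneg (sq_nonneg _), ← sq_abs (x - u)] at h3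
      have h5 : |x - u| ^ 2 * |R.eval x| ≤ |x - u| ^ 2 * M := by linarith
      exact le_of_mul_le_mul_left h5 (by positivity)
  refine h.contra hP (fun x hx => ?_)
  have hσ := h.hσ
  have hσ1 : σ ≤ 1 := by
    have := h.hs x hx
    nlinarith [sq_nonneg x]
  rw [hPe, abs_mul, abs_of_nonneg (by positivity : 0 ≤ (x - u) ^ 2 + v ^ 2)]
  have h3 : (x - u) ^ 2 ≤ (b - a) ^ 2 := by
    rw [← sq_abs (x - u)]
    refine pow_le_pow_left₀ (abs_nonneg _) ?_ 2
    rw [abs_le]
    constructor <;> linarith [hx.1, hx.2, hu.1, hu.2]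
  have h4 : v ^ 2 ≤ (b - a) ^ 2 := by
    rw [← sq_abs v]
    exact pow_le_pow_left₀ (abs_nonneg _) hv 2
  have hba : 0 ≤ b - a := by linarith [h.hab]
  have h5 : (b - a) ^ 2 ≤ σ ^ 4 / (4 * n ^ 2) := by
    rw [le_div_iff₀ (by positivity)]
    have := pow_le_pow_left₀ (by positivity) h.hw 2
    nlinarith
  calc ((x - u) ^ 2 + v ^ 2) * |R.eval x| ≤ (2 * (σ ^ 4 / (4 * n ^ 2))) * M :=
        mul_le_mul (by linarith) (hRb x hx) (abs_nonneg _) (by positivity)
    _ = 29 / 50 * n * σ := by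
        rw [hM]
        field_simp
        ring
    _ ≤ 3 / 5 * n := by nlinarith

/-- no critical point near a short window -/
theorem Win.not_lens (h : Win n a b σ) {P : ℝ[X]} (hP : Ext n a b P) {z : ℂ}
    (hz : aeval z P.derivative = 0) : ¬ Lens a b z := by
  intro hN
  obtain ⟨h1, h2, h3⟩ := lens_re h.hab hN
  by_cases him : z.im = 0
  · exact h.real_case hP ⟨h1.le, h2.le⟩ (aeval_real him hz)
  · exact h.cx_case hP ⟨h1.le, h2.le⟩ h3.le (quad_dvd hz him)

end

end Pool.Agent.Helper40.AS
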