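import Pool.Agent.Helper40.AS.Cases

/-!
Assembly: the complex critical points of an extremal polynomial.
-/

set_option autoImplicit false

namespace Pool.Agent.Helper40.AS

open Polynomial Set

noncomputable section

variable {n : ℕ} {a b : ℝ} {P : ℝ[X]}

/-- The lens over the window: the intersection of the two open discs with centres `a` and `b`
and radius `b - a`. -/
def Lens (a b : ℝ) (z : ℂ) : Prop := ‖z - (a : ℂ)‖ < b - a ∧ ‖z - (b : ℂ)‖ < b - a

/-- The open disc with diameter `[a, b]`. -/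
def Disc (a b : ℝ) (z : ℂ) : Prop := ‖z - ((a : ℂ) + (b : ℂ)) / 2‖ < (b - a) / 2

theorem norm_sub_lt_iff (z : ℂ) (c : ℝ) {r : ℝ} (hr : 0 ≤ r) :
    ‖z - (c : ℂ)‖ < r ↔ (z.re - c) ^ 2 + z.im ^ 2 < r ^ 2 := by
  rw [← pow_lt_pow_iff_left₀ (norm_nonneg _) hr two_ne_zero, Complex.sq_norm,
    Complex.normSq_apply]
  simp only [Complex.sub_re, Complex.sub_im, Complex.ofReal_re, Complex.ofReal_im, sub_zero]
  rw [← pow_two, ← pow_two]

theorem lens_iff (hab : a < b) (z : ℂ) : Lens a b z ↔
    (z.re - a) ^ 2 + z.im ^ 2 < (b - a) ^ 2 ∧ (z.re - b) ^ 2 + z.im ^ 2 < (b - a) ^ 2 := by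
  rw [Lens, norm_sub_lt_iff z a (by linarith), norm_sub_lt_iff z b (by linarith)]

theorem disc_iff (hab : a < b) (z : ℂ) : Disc a b z ↔
    z.im ^ 2 < (z.re - a) * (b - z.re) := by
  have e : ((a : ℂ) + (b : ℂ)) / 2 = (((a + b) / 2 : ℝ) : ℂ) := by push_cast; ring
  rw [Disc, e, norm_sub_lt_iff z _ (by linarith)]
  constructor <;> intro h <;> nlinarith

theorem disc_lens (hab : a < b) {z : ℂ} (h : Disc a b z) : Lens a b z := by
  rw [disc_iff hab] at h
  rw [lens_iff hab]
  have h0 : 0 < (z.re - a) * (b - z.re) := lt_of_le_of_lt (sq_nonneg _) h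
  have h1 : a < z.re ∧ z.re < b := by
    rcases pos_and_pos_or_neg_and_neg_of_mul_pos h0 with ⟨h1, h2⟩ | ⟨h1, h2⟩
    · exact ⟨by linarith, by linarith⟩
    · exfalso
      linarith
  obtain ⟨h1, h2⟩ := h1
  constructor
  · nlinarith [mul_pos (show 0 < b - a by linarith) (show 0 < b - z.re by linarith)]
  · nlinarith [mul_pos (show 0 < b - a by linarith) (show 0 < z.re - a by linarith)]

theorem lens_re (hab : a < b) {z : ℂ} (h : Lens a b z) :
    a < z.re ∧ z.re < b ∧ |z.im| < b - a := by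
  rw [lens_iff hab] at h
  obtain ⟨h1, h2⟩ := h
  refine ⟨?_, ?_, ?_⟩
  · have h3 : (z.re - b) ^ 2 < (b - a) ^ 2 := by nlinarith [sq_nonneg z.im]
    have := (abs_lt.1 (abs_lt_of_sq_lt_sq h3 (by linarith))).1
    linarith
  · have h3 : (z.re - a) ^ 2 < (b - a) ^ 2 := by nlinarith [sq_nonneg z.im]
    have := (abs_lt.1 (abs_lt_of_sq_lt_sq h3 (by linarith))).2
    linarith
  · refine abs_lt_of_sq_lt_sq ?_ (by linarith)
    nlinarith [sq_nonneg (z.re - a)]

/-- `z` is a real point of `(-1,1)` at which `|P| = 1`. -/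
def Contact (P : ℝ[X]) (z : ℂ) : Prop :=
  z.im = 0 ∧ -1 < z.re ∧ z.re < 1 ∧ |P.eval z.re| = 1

/-- Critical points to the right of the window are simple contact points. -/
theorem right_contact (h : Ext n a b P) (hn : 1 ≤ n) (hab : a < b) (ha : -1 ≤ a)
    {ζ : ℝ} (hζ : ζ < 1) (hζb : b ≤ ζ) (hr : P.derivative.eval ζ = 0) :
    |P.eval ζ| = 1 ∧ P.derivative.derivative.eval ζ ≠ 0 := by
  have h1 := left_contact (ext_refl h) hn (by linarith : -b < -a) (by linarith : -a ≤ 1)
    (ζ := -ζ) (by linarith) (by linarith) (by rw [comp_der_eval, neg_neg, hr, neg_zero])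
  rw [comp_eval, neg_neg] at h1
  refine ⟨h1.1, fun h2 => h1.2 ?_⟩
  rw [comp_der]
  have : (-(P.derivative.comp (-X))).derivative = P.derivative.derivative.comp (-X) := by
    rw [derivative_neg, comp_der, neg_neg]
  rw [this, comp_eval, neg_neg, h2]

theorem aeval_real {p : ℝ[X]} {z : ℂ} (hz : z.im = 0) (h : aeval z p = 0) :
    p.eval z.re = 0 := by
  have e : z = algebraMap ℝ ℂ z.re := Complex.ext (by simp) (by simp [hz])
  rw [e, aeval_algebraMap_apply] at h
  have h2 : aeval z.re p = 0 := by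
    apply (algebraMap ℝ ℂ).injective
    rw [h, map_zero]
  simpa using h2

theorem disc_real (hab : a < b) {z : ℂ} (hz : z.im = 0) (h1 : a < z.re) (h2 : z.re < b) :
    Disc a b z := by
  rw [disc_iff hab, hz]
  nlinarith [mul_pos (show 0 < z.re - a by linarith) (show 0 < b - z.re by linarith)]

theorem lens_real (hab : a < b) {z : ℂ} (hz : z.im = 0) (h1 : a < z.re) (h2 : z.re < b) :
    Lens a b z := disc_lens hab (disc_real hab hz h1 h2)

theorem free_all (h : Ext n a b P) (hn : 1 ≤ n) (ha : -1 ≤ a) (hab : a < b) (hb : b ≤ 1)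
    (hf : |P.eval (-1)| ≠ 1) {z : ℂ} (hz : aeval z P.derivative = 0) :
    Disc a b z ∨ Contact P z := by
  by_cases him : z.im = 0
  · have hr := aeval_real him hz
    rcases le_or_gt z.re (-1) with h1 | h1
    · exact (free_le h hn ha hab hf h1 hr).elim
    rcases le_or_gt 1 z.re with h2 | h2
    · exact (free_ge h hn ha hab hb hf h2 hr).elim
    rcases le_or_gt z.re a with h3 | h3
    · exact Or.inr ⟨him, h1, h2, (left_contact h hn hab hb h1 h3 hr).1⟩
    rcases le_or_gt b z.re with h4 | h4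
    · exact Or.inr ⟨him, h1, h2, (right_contact h hn hab ha h2 h4 hr).1⟩
    exact Or.inl (disc_real hab him h3 h4)
  · by_cases hN : Disc a b z
    · exact Or.inl hN
    · refine (free_cx h hn hab hf him ?_ (quad_dvd hz him)).elim
      rw [disc_iff hab] at hN
      linarith

theorem aeval_refl {z : ℂ} (hz : aeval z P.derivative = 0) :
    aeval (-z) (P.comp (-X)).derivative = 0 := by
  rw [comp_der, map_neg, aeval_comp]
  simp [hz]

theorem disc_refl (hab : a < b) {z : ℂ} (h : Disc (-b) (-a) (-z)) : Disc a b z := by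
  rw [disc_iff (by linarith)] at h
  rw [disc_iff hab]
  simp only [Complex.neg_re, Complex.neg_im] at h
  nlinarith

theorem contact_refl {z : ℂ} (h : Contact (P.comp (-X)) (-z)) : Contact P z := by
  obtain ⟨h1, h2, h3, h4⟩ := h
  rw [comp_eval] at h4
  simp only [Complex.neg_re, Complex.neg_im, neg_neg] at h1 h2 h3 h4
  exact ⟨by linarith, by linarith, by linarith, h4⟩

theorem free_all' (h : Ext n a b P) (hn : 1 ≤ n) (ha : -1 ≤ a) (hab : a < b) (hb : b ≤ 1)
    (hf : |P.eval 1| ≠ 1) {z : ℂ} (hz : aeval z P.derivative = 0) :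
    Disc a b z ∨ Contact P z := by
  rcases free_all (ext_refl h) hn (by linarith) (by linarith) (by linarith)
    (by rw [comp_eval, neg_neg]; exact hf) (aeval_refl hz) with h1 | h1
  · exact Or.inl (disc_refl hab h1)
  · exact Or.inr (contact_refl h1)

/-- Under the window condition the exceptional critical points are real and outside `(-1,1)`. -/
theorem exc_real (h : Ext n a b P) (hn : 1 ≤ n) (ha : -1 ≤ a) (hab : a < b) (hb : b ≤ 1)
    (hwa : b - a ≤ 1 + a) (hwb : b - a ≤ 1 - b) {z : ℂ} (hz : aeval z P.derivative = 0)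
    (hN : ¬ Lens a b z) (hC : ¬ Contact P z) : z.im = 0 ∧ (z.re ≤ -1 ∨ 1 ≤ z.re) := by
  by_cases him : z.im = 0
  · refine ⟨him, ?_⟩
    have hr := aeval_real him hz
    by_contra hcon
    push Not at hcon
    obtain ⟨h1, h2⟩ := hcon
    rcases le_or_gt z.re a with h3 | h3
    · exact hC ⟨him, h1, h2, (left_contact h hn hab hb h1 h3 hr).1⟩
    rcases le_or_gt b z.re with h4 | h4
    · exact hC ⟨him, h1, h2, (right_contact h hn hab ha h2 h4 hr).1⟩
    exact hN (lens_real hab him h3 h4)
  · exfalso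
    rw [lens_iff hab, not_and_or, not_lt, not_lt] at hN
    rcases hN with h1 | h1
    · have h3 := quad_dvd (aeval_refl hz) (by simpa using him)
      simp only [Complex.neg_re, Complex.neg_im] at h3
      exact pair_cx (ext_refl h) hn (by linarith : -b < -a) (by linarith) (by linarith)
        (by linarith) (neg_ne_zero.2 him) (by nlinarith) h3
    · exact pair_cx h hn hab hwa ha hb him (by nlinarith) (quad_dvd hz him)

theorem two_exc (h : Ext n a b P) (hn : 1 ≤ n) (ha : -1 ≤ a) (hab : a < b) (hb : b ≤ 1)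
    (hwa : b - a ≤ 1 + a) (hwb : b - a ≤ 1 - b) {y z : ℝ} (hy : y ≤ -1 ∨ 1 ≤ y)
    (hz : z ≤ -1 ∨ 1 ≤ z) (hr : (X - C y) * (X - C z) ∣ P.derivative) : False := by
  rcases hy with hy | hy <;> rcases hz with hz | hz
  · exact pair_le h hn hab hwa ha hb hy hz hr
  · exact pair_mixed h hn hab hwa ha (by linarith) hy hz hr
  · rw [mul_comm] at hr
    exact pair_mixed h hn hab hwa ha (by linarith) hz hy hr
  · refine pair_le (ext_refl h) hn (by linarith : -b < -a) (by linarith) (by linarith)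
      (by linarith) (y := -y) (z := -z) (by linarith) (by linarith) ?_
    obtain ⟨R, hR⟩ := hr
    refine ⟨-(R.comp (-X)), ?_⟩
    rw [comp_der, hR]
    simp only [mul_comp, sub_comp, X_comp, C_comp, C_neg]
    ring

/-- With a free end point the degree is `n`. -/
theorem free_natDegree (h : Ext n a b P) (hn : 1 ≤ n) (hab : a < b)
    (hf : |P.eval (-1)| ≠ 1 ∨ |P.eval 1| ≠ 1) : P.natDegree = n := by
  refine le_antisymm (natDegree_le_of_degree_le h.deg) ?_
  by_contra hcon
  push Not at hcon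
  rcases hf with hf | hf
  · exact free_deg h hn hab hf (by omega)
  · refine free_deg (ext_refl h) hn (by linarith : -b < -a)
      (by rw [comp_eval, neg_neg]; exact hf) ?_
    have := natDegree_comp_le (p := P) (q := -X)
    rw [natDegree_neg, natDegree_X, mul_one] at this
    omega

theorem card_crit (P : ℝ[X]) : (P.derivative.aroots ℂ).card = P.natDegree - 1 := by
  rw [IsAlgClosed.card_aroots_eq_natDegree, natDegree_derivative]

open Classical in
theorem one_exc (h : Ext n a b P) (hn : 1 ≤ n) (ha : -1 ≤ a) (hab : a < b) (hb : b ≤ 1)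
    (hwa : b - a ≤ 1 + a) (hwb : b - a ≤ 1 - b) :
    ((P.derivative.aroots ℂ).filter fun z => ¬ (Lens a b z ∨ Contact P z)).card ≤ 1 := by
  by_contra hcon
  rw [not_le] at hcon
  set m := (P.derivative.aroots ℂ).filter fun z => ¬ (Lens a b z ∨ Contact P z) with hm
  obtain ⟨z, hz⟩ := Multiset.card_pos_iff_exists_mem.1 (by omega : 0 < m.card)
  obtain ⟨s, hs⟩ := Multiset.exists_cons_of_mem hz
  have hsc : 0 < s.card := by
    rw [hs, Multiset.card_cons] at hcon
    omega
  obtain ⟨w, hw⟩ := Multiset.card_pos_iff_exists_mem.1 hsc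
  obtain ⟨t, ht⟩ := Multiset.exists_cons_of_mem hw
  have hwm : w ∈ m := by
    rw [hs]
    exact Multiset.mem_cons_of_mem hw
  have hz' := Multiset.mem_filter.1 hz
  have hw' := Multiset.mem_filter.1 hwm
  obtain ⟨hz1, hz2⟩ := exc_real h hn ha hab hb hwa hwb (mem_aroots.1 hz'.1).2
    (fun h1 => hz'.2 (Or.inl h1)) (fun h1 => hz'.2 (Or.inr h1))
  obtain ⟨hw1, hw2⟩ := exc_real h hn ha hab hb hwa hwb (mem_aroots.1 hw'.1).2
    (fun h1 => hw'.2 (Or.inl h1)) (fun h1 => hw'.2 (Or.inr h1))
  refine two_exc h hn ha hab hb hwa hwb hz2 hw2 ?_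
  have hle : z ::ₘ w ::ₘ 0 ≤ P.derivative.aroots ℂ := by
    calc z ::ₘ w ::ₘ 0 ≤ m := by
          rw [hs, ht]
          exact Multiset.cons_le_cons _ (Multiset.cons_le_cons _ (Multiset.zero_le _))
      _ ≤ _ := Multiset.filter_le _ _
  have hne : P.derivative.map (algebraMap ℝ ℂ) ≠ 0 := by
    rw [Ne, Polynomial.map_eq_zero]
    exact ext_ne h hn hab
  have hd := (Multiset.prod_X_sub_C_dvd_iff_le_roots hne (z ::ₘ w ::ₘ 0)).2 hle
  rw [← Polynomial.map_dvd_map' (algebraMap ℝ ℂ)]
  have ez : (algebraMap ℝ ℂ) z.re = z := Complex.ext (by simp) (by simp [hz1])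
  have ew : (algebraMap ℝ ℂ) w.re = w := Complex.ext (by simp) (by simp [hw1])
  simpa [ez, ew] using hd

theorem deg_ge (h : Ext n a b P) (hn : 1 ≤ n) (ha : -1 ≤ a) (hab : a < b) (hb : b ≤ 1)
    (hwa : b - a ≤ 1 + a) : n ≤ P.natDegree + 1 := by
  by_contra hcon
  push Not at hcon
  exact deg_two h hn hab hwa ha hb (by omega)

/-- If the degree is `n - 1` there is no exceptional critical point. -/
theorem deg_exc (h : Ext n a b P) (hn : 1 ≤ n) (ha : -1 ≤ a) (hab : a < b) (hb : b ≤ 1)
    (hwa : b - a ≤ 1 + a) (hwb : b - a ≤ 1 - b) (hd : P.natDegree + 1 ≤ n)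
    {z : ℂ} (hz : aeval z P.derivative = 0) : Lens a b z ∨ Contact P z := by
  by_contra hcon
  push Not at hcon
  obtain ⟨h1, h2⟩ := exc_real h hn ha hab hb hwa hwb hz hcon.1 hcon.2
  have hr := aeval_real h1 hz
  rcases h2 with h2 | h2
  · exact deg_one_le h hn hab hwa ha hb hd h2 hr
  · exact deg_one_ge h hn hab hwa ha (by linarith) hd h2 hr

open Classical in
theorem count_good (h : Ext n a b P) (hn : 1 ≤ n) (ha : -1 ≤ a) (hab : a < b) (hb : b ≤ 1)
    (hwa : b - a ≤ 1 + a) (hwb : b - a ≤ 1 - b) :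
    n ≤ ((P.derivative.aroots ℂ).filter fun z => Lens a b z ∨ Contact P z).card + 2 := by
  have h1 := one_exc h hn ha hab hb hwa hwb
  have h2 := Multiset.filter_add_not (fun z => Lens a b z ∨ Contact P z) (P.derivative.aroots ℂ)
  have h3 := congrArg Multiset.card h2
  rw [Multiset.card_add, card_crit] at h3
  have h4 := deg_ge h hn ha hab hb hwa
  by_cases hd : P.natDegree + 1 ≤ n
  · have h5 : ((P.derivative.aroots ℂ).filter fun z => ¬ (Lens a b z ∨ Contact P z)) = 0 := by
      rw [Multiset.filter_eq_nil]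
      intro z hz
      rw [not_not]
      exact deg_exc h hn ha hab hb hwa hwb hd (mem_aroots.1 hz).2
    rw [h5, Multiset.card_zero] at h3
    omega
  · omega

open Classical in
theorem count_free (h : Ext n a b P) (hn : 1 ≤ n) (ha : -1 ≤ a) (hab : a < b) (hb : b ≤ 1)
    (hf : |P.eval (-1)| ≠ 1 ∨ |P.eval 1| ≠ 1) :
    n ≤ ((P.derivative.aroots ℂ).filter fun z => Disc a b z ∨ Contact P z).card + 1 := by
  have h1 : (P.derivative.aroots ℂ).filter (fun z => Disc a b z ∨ Contact P z) =
      P.derivative.aroots ℂ := by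
    rw [Multiset.filter_eq_self]
    intro z hz
    rcases hf with hf | hf
    · exact free_all h hn ha hab hb hf (mem_aroots.1 hz).2
    · exact free_all' h hn ha hab hb hf (mem_aroots.1 hz).2
  rw [h1, card_crit, free_natDegree h hn hab hf]
  omega

open Classical in
theorem count_free' (h : Ext n a b P) (hn : 1 ≤ n) (ha : -1 ≤ a) (hab : a < b) (hb : b ≤ 1)
    (hf : |P.eval (-1)| ≠ 1 ∨ |P.eval 1| ≠ 1) :
    n ≤ ((P.derivative.aroots ℂ).filter fun z => Lens a b z ∨ Contact P z).card + 1 := by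
  refine (count_free h hn ha hab hb hf).trans (Nat.succ_le_succ (Multiset.card_le_card ?_))
  apply Multiset.monotone_filter_right
  rintro z (h1 | h1)
  · exact Or.inl (disc_lens hab h1)
  · exact Or.inr h1

end

end Pool.Agent.Helper40.AS
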