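import Pool.Agent.Helper40.AS.Kkt

/-!
The general exclusion lemma and its applications.
-/

set_option autoImplicit false

namespace Pool.Agent.Helper40.AS

open Polynomial Set MeasureTheory intervalIntegral Filter Topology

noncomputable section

variable {n : ℕ} {a b : ℝ} {P : ℝ[X]}

theorem contact_int (hP : Bdd P) {x : ℝ} (hx : x ∈ Ioo (-1 : ℝ) 1) (h : |P.eval x| = 1) :
    P.derivative.eval x = 0 := by
  have hsq : P.eval x * P.eval x = 1 := by
    rw [← abs_mul_abs_self, h, one_mul]
  have h1 : IsLocalMax (fun y => P.eval x * P.eval y) x := by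
    filter_upwards [Ioo_mem_nhds hx.1 hx.2] with y hy
    have := hP y ⟨hy.1.le, hy.2.le⟩
    calc P.eval x * P.eval y ≤ |P.eval x * P.eval y| := le_abs_self _
      _ = |P.eval y| := by rw [abs_mul, h, one_mul]
      _ ≤ 1 := this
      _ = P.eval x * P.eval x := hsq.symm
  have h2 : HasDerivAt (fun y => P.eval x * P.eval y) (P.eval x * P.derivative.eval x) x :=
    (P.hasDerivAt x).const_mul _
  have h3 := h1.hasDerivAt_eq_zero h2
  rcases mul_eq_zero.1 h3 with h4 | h4
  · rw [h4] at hsq
    norm_num at hsq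
  · exact h4

theorem end_one (hP : Bdd P) (h : |P.eval 1| = 1) {D R : ℝ[X]} (hPD : P.derivative = D * R)
    (hD : ∀ x ∈ Ioo (-1 : ℝ) 1, 0 < D.eval x) : 0 ≤ P.eval 1 * R.eval 1 := by
  by_contra hcon
  push Not at hcon
  have hsq : P.eval 1 * P.eval 1 = 1 := by
    rw [← abs_mul_abs_self, h, one_mul]
  have h1 : ∀ᶠ y in 𝓝 (1 : ℝ), P.eval 1 * R.eval y < 0 :=
    (continuous_const.mul R.continuous).continuousAt.eventually_lt continuousAt_const hcon
  rw [Metric.eventually_nhds_iff] at h1
  obtain ⟨r, hr0, hr⟩ := h1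
  set c := max (1 - r / 2) 0 with hc
  have hc1 : c < 1 := max_lt (by linarith) one_pos
  have hc0 : 0 ≤ c := le_max_right _ _
  have hcr : 1 - r / 2 ≤ c := le_max_left _ _
  have hanti : StrictAntiOn (fun y => P.eval 1 * P.eval y) (Icc c 1) := by
    apply strictAntiOn_of_deriv_neg (convex_Icc c 1)
    · fun_prop
    · intro y hy
      rw [interior_Icc] at hy
      have h2 : HasDerivAt (fun y => P.eval 1 * P.eval y) (P.eval 1 * P.derivative.eval y) y :=
        (P.hasDerivAt y).const_mul _
      rw [h2.deriv, hPD, eval_mul]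
      have h3 := hD y ⟨by linarith [hy.1], hy.2⟩
      have h4 : P.eval 1 * R.eval y < 0 := by
        apply hr
        rw [Real.dist_eq, abs_lt]
        constructor <;> linarith [hy.1, hy.2]
      nlinarith
  have h5 := hanti (left_mem_Icc.2 hc1.le) (right_mem_Icc.2 hc1.le) hc1
  simp only at h5
  rw [hsq] at h5
  have h6 := hP c ⟨by linarith, hc1.le⟩
  have h7 : P.eval 1 * P.eval c ≤ 1 := by
    calc P.eval 1 * P.eval c ≤ |P.eval 1 * P.eval c| := le_abs_self _
      _ = |P.eval c| := by rw [abs_mul, h, one_mul]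
      _ ≤ 1 := h6
  linarith

theorem end_neg_one (hP : Bdd P) (h : |P.eval (-1)| = 1) {D R : ℝ[X]}
    (hPD : P.derivative = D * R)
    (hD : ∀ x ∈ Ioo (-1 : ℝ) 1, 0 < D.eval x) : P.eval (-1) * R.eval (-1) ≤ 0 := by
  by_contra hcon
  push Not at hcon
  have hsq : P.eval (-1) * P.eval (-1) = 1 := by
    rw [← abs_mul_abs_self, h, one_mul]
  have h1 : ∀ᶠ y in 𝓝 (-1 : ℝ), 0 < P.eval (-1) * R.eval y :=
    continuousAt_const.eventually_lt (continuous_const.mul R.continuous).continuousAt hcon
  rw [Metric.eventually_nhds_iff] at h1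
  obtain ⟨r, hr0, hr⟩ := h1
  set c := min (-1 + r / 2) 0 with hc
  have hc1 : -1 < c := lt_min (by linarith) (by norm_num)
  have hc0 : c ≤ 0 := min_le_right _ _
  have hcr : c ≤ -1 + r / 2 := min_le_left _ _
  have hmono : StrictMonoOn (fun y => P.eval (-1) * P.eval y) (Icc (-1) c) := by
    apply strictMonoOn_of_deriv_pos (convex_Icc (-1) c)
    · fun_prop
    · intro y hy
      rw [interior_Icc] at hy
      have h2 : HasDerivAt (fun y => P.eval (-1) * P.eval y)
          (P.eval (-1) * P.derivative.eval y) y := (P.hasDerivAt y).const_mul _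
      rw [h2.deriv, hPD, eval_mul]
      have h3 := hD y ⟨hy.1, by linarith [hy.2]⟩
      have h4 : 0 < P.eval (-1) * R.eval y := by
        apply hr
        rw [Real.dist_eq, abs_lt]
        constructor <;> linarith [hy.1, hy.2]
      nlinarith
  have h5 := hmono (left_mem_Icc.2 hc1.le) (right_mem_Icc.2 hc1.le) hc1
  simp only at h5
  rw [hsq] at h5
  have h6 := hP c ⟨hc1.le, by linarith⟩
  have h7 : P.eval (-1) * P.eval c ≤ 1 := by
    calc P.eval (-1) * P.eval c ≤ |P.eval (-1) * P.eval c| := le_abs_self _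
      _ = |P.eval c| := by rw [abs_mul, h, one_mul]
      _ ≤ 1 := h6
  linarith

theorem ext_ne (h : Ext n a b P) (hn : 1 ≤ n) (hab : a < b) : P.derivative ≠ 0 := by
  intro h0
  have h1 := h.max X (by
    rw [degree_X]
    exact_mod_cast hn) (by
    intro x hx
    rw [eval_X]
    exact abs_le.2 ⟨hx.1, hx.2⟩)
  have h2 : arc a b P = b - a := by
    simp [arc, h0]
  have h3 : arc a b (X : ℝ[X]) = (b - a) * √2 := by
    simp only [arc, derivative_X, eval_one]
    norm_num
  rw [h2, h3] at h1
  have h4 : (1 : ℝ) < √2 := by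
    rw [Real.lt_sqrt (by norm_num)]
    norm_num
  nlinarith

/-- General exclusion lemma. -/
theorem excl (h : Ext n a b P) (hn : 1 ≤ n) (hab : a < b)
    {W D R : ℝ[X]} (hPD : P.derivative = D * R)
    (hdeg : W.natDegree + P.natDegree ≤ D.natDegree + 1 + n)
    (hint : ∀ x ∈ Ioo (-1 : ℝ) 1, |P.eval x| = 1 → R.eval x = 0)
    (h1 : |P.eval 1| = 1 → 0 ≤ P.eval 1 * (W.eval 1 * R.eval 1))
    (hm1 : |P.eval (-1)| = 1 → 0 ≤ P.eval (-1) * (W.eval (-1) * R.eval (-1)))
    (hDpos : ∀ x ∈ Ioo a b, 0 < D.eval x) (hW : ∀ x ∈ Ioo a b, 0 ≤ W.eval x)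
    (hlim : Tendsto (fun x => W.eval x / D.eval x) (𝓝[<] b) (𝓝 0))
    (hneg : ∀ x ∈ Ioo a b, W.derivative.eval x * D.eval x - W.eval x * D.derivative.eval x < 0) :
    False := by
  have hne := ext_ne h hn hab
  have hDR : D ≠ 0 ∧ R ≠ 0 := by
    rw [hPD] at hne
    exact mul_ne_zero_iff.1 hne
  have hP0 : P.natDegree ≠ 0 := by
    intro h0
    exact hne (by rw [eq_C_of_natDegree_eq_zero h0, derivative_C])
  have hGdeg : (-(W * R)).degree ≤ (n : WithBot ℕ) := by
    rw [degree_neg]
    apply degree_le_of_natDegree_le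
    refine natDegree_mul_le.trans ?_
    have e1 : P.derivative.natDegree = D.natDegree + R.natDegree := by
      rw [hPD, natDegree_mul hDR.1 hDR.2]
    have e2 : P.derivative.natDegree ≤ P.natDegree - 1 := natDegree_derivative_le P
    omega
  have hk := kkt h hab.le (G := -(W * R)) hGdeg (by
    intro x hx hx1
    rcases eq_or_lt_of_le hx.1 with e | e
    · subst e
      have := hm1 hx1
      simp only [eval_neg, eval_mul]
      linarith
    · rcases eq_or_lt_of_le hx.2 with e' | e'
      · subst e'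
        have := h1 hx1
        simp only [eval_neg, eval_mul]
        linarith
      · rw [eval_neg, eval_mul, hint x ⟨e, e'⟩ hx1]
        simp)
  have hp := pos_integral hab (P := P) (G := -(W * R)) hne
    (h := fun x => W.eval x / D.eval x)
    (h' := fun x => (W.derivative.eval x * D.eval x - W.eval x * D.derivative.eval x) /
      D.eval x ^ 2)
    (fun x hx => (W.hasDerivAt x).div (D.hasDerivAt x) (hDpos x hx).ne')
    (fun x hx => div_neg_of_neg_of_pos (hneg x hx) (pow_pos (hDpos x hx) 2))
    (fun x hx => div_nonneg (hW x hx) (hDpos x hx).le) hlim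
    (fun x hx => by
      rw [hPD, eval_neg, eval_mul, eval_mul]
      have := (hDpos x hx).ne'
      field_simp)
  linarith

/-- The exclusion lemma with the simpler degree condition. -/
theorem excl' (h : Ext n a b P) (hn : 1 ≤ n) (hab : a < b)
    {W D R : ℝ[X]} (hPD : P.derivative = D * R)
    (hdeg : W.natDegree ≤ D.natDegree + 1)
    (hint : ∀ x ∈ Ioo (-1 : ℝ) 1, |P.eval x| = 1 → R.eval x = 0)
    (h1 : |P.eval 1| = 1 → 0 ≤ P.eval 1 * (W.eval 1 * R.eval 1))
    (hm1 : |P.eval (-1)| = 1 → 0 ≤ P.eval (-1) * (W.eval (-1) * R.eval (-1)))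
    (hDpos : ∀ x ∈ Ioo a b, 0 < D.eval x) (hW : ∀ x ∈ Ioo a b, 0 ≤ W.eval x)
    (hlim : Tendsto (fun x => W.eval x / D.eval x) (𝓝[<] b) (𝓝 0))
    (hneg : ∀ x ∈ Ioo a b, W.derivative.eval x * D.eval x - W.eval x * D.derivative.eval x < 0) :
    False := by
  have hPdeg : P.natDegree ≤ n := natDegree_le_of_degree_le h.deg
  exact excl h hn hab hPD (by omega) hint h1 hm1 hDpos hW hlim hneg

theorem lim_zero {W D : ℝ[X]} (hW : W.eval b = 0) (hD : D.eval b ≠ 0) :
    Tendsto (fun x => W.eval x / D.eval x) (𝓝[<] b) (𝓝 0) := by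
  have h1 : ContinuousAt (fun x => W.eval x / D.eval x) b :=
    W.continuous.continuousAt.div D.continuous.continuousAt hD
  have h2 := h1.tendsto.mono_left (nhdsWithin_le_nhds (s := Iio b))
  simpa [hW] using h2

/-- Critical points to the left of the window are simple contact points. -/
theorem left_contact (h : Ext n a b P) (hn : 1 ≤ n) (hab : a < b) (hb : b ≤ 1)
    {ζ : ℝ} (hζ : -1 < ζ) (hζa : ζ ≤ a) (hr : P.derivative.eval ζ = 0) :
    |P.eval ζ| = 1 ∧ P.derivative.derivative.eval ζ ≠ 0 := by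
  by_contra hcon
  obtain ⟨R, hR⟩ : X - C ζ ∣ P.derivative := dvd_iff_isRoot.2 hr
  have hR' : P.derivative.derivative.eval ζ = R.eval ζ := by
    rw [hR]
    simp [derivative_mul]
  refine excl h hn hab (W := (C b - X) * (1 - X)) (D := X - C ζ) hR ?_ ?_ ?_ ?_ ?_ ?_ ?_ ?_
  · have hPdeg : P.natDegree ≤ n := natDegree_le_of_degree_le h.deg
    have hW : ((C b - X) * (1 - X) : ℝ[X]).natDegree ≤ 2 := by compute_degree
    rw [natDegree_X_sub_C]
    omega
  · intro x hx hx1
    have h1 := contact_int h.bdd hx hx1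
    rw [hR, eval_mul] at h1
    rcases mul_eq_zero.1 h1 with h2 | h2
    · have h3 : x = ζ := by
        simp only [eval_sub, eval_X, eval_C] at h2
        linarith
      subst h3
      by_contra h4
      exact hcon ⟨hx1, by rwa [hR']⟩
    · exact h2
  · intro _
    simp
  · intro hm
    have h1 := end_neg_one h.bdd hm (D := 1) (R := P.derivative) (by rw [one_mul])
      (fun x _ => by simp)
    rw [hR] at h1
    simp only [eval_mul, eval_sub, eval_X, eval_C, eval_one] at h1 ⊢
    have h2 : 0 ≤ P.eval (-1) * R.eval (-1) := by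
      by_contra h3
      push Not at h3
      nlinarith
    nlinarith [mul_nonneg h2 (show (0 : ℝ) ≤ (b - -1) * (1 - -1) by nlinarith)]
  · intro x hx
    simp only [eval_sub, eval_X, eval_C]
    linarith [hx.1]
  · intro x hx
    simp only [eval_mul, eval_sub, eval_X, eval_C, eval_one]
    exact mul_nonneg (by linarith [hx.2]) (by linarith [hx.2])
  · apply lim_zero
    · simp
    · simp only [eval_sub, eval_X, eval_C]
      linarith
  · intro x hx
    have hx1 := hx.1
    have hx2 := hx.2
    simp only [derivative_mul, derivative_sub, derivative_C, derivative_X, derivative_one,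
      eval_add, eval_mul, eval_sub, eval_X, eval_C, eval_one, eval_zero]
    nlinarith [mul_pos (show 0 < 1 - x by linarith) (show 0 < x - ζ by linarith),
      mul_pos (show 0 < b - x by linarith) (show 0 < x - ζ by linarith),
      mul_pos (show 0 < b - x by linarith) (show 0 < 1 - x by linarith)]

/-- At least one end point is a contact point. -/
theorem ends (h : Ext n a b P) (hn : 1 ≤ n) (hab : a < b) :
    |P.eval (-1)| = 1 ∨ |P.eval 1| = 1 := by
  by_contra hcon
  push Not at hcon
  refine excl h hn hab (W := C b - X) (D := 1) (R := P.derivative) (by rw [one_mul])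
    ?_ (fun x hx hx1 => contact_int h.bdd hx hx1)
    (fun h1 => absurd h1 hcon.2) (fun h1 => absurd h1 hcon.1) ?_ ?_ ?_ ?_
  · have hPdeg : P.natDegree ≤ n := natDegree_le_of_degree_le h.deg
    have hW : (C b - X : ℝ[X]).natDegree ≤ 1 := by compute_degree
    rw [natDegree_one]
    omega
  · intro x _
    simp
  · intro x hx
    simp only [eval_sub, eval_X, eval_C]
    linarith [hx.2]
  · apply lim_zero <;> simp
  · intro x _
    simp

end

end Pool.Agent.Helper40.AS
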