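import Mathlib

/-!
First order conditions for polynomials of largest arc length.
-/

set_option autoImplicit false

namespace Pool.Agent.Helper40.AS

open Polynomial Set MeasureTheory intervalIntegral Filter Topology

noncomputable section

/-- Arc length of the graph of `P` over `[a, b]`. -/
def arc (a b : ℝ) (P : ℝ[X]) : ℝ := ∫ x in a..b, √(1 + (P.derivative.eval x) ^ 2)

/-- `P` is bounded by `1` in absolute value on `[-1, 1]`. -/
def Bdd (P : ℝ[X]) : Prop := ∀ x ∈ Icc (-1 : ℝ) 1, |P.eval x| ≤ 1

/-- `P` is extremal: of degree at most `n`, bounded by `1` on `[-1,1]`, and its arc length over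
`[a, b]` is the largest possible. -/
structure Ext (n : ℕ) (a b : ℝ) (P : ℝ[X]) : Prop where
  deg : P.degree ≤ n
  bdd : Bdd P
  max : ∀ Q : ℝ[X], Q.degree ≤ n → Bdd Q → arc a b Q ≤ arc a b P

theorem cont_s (P : ℝ[X]) : Continuous fun x => √(1 + (P.derivative.eval x) ^ 2) := by
  fun_prop

theorem s_pos (P : ℝ[X]) (x : ℝ) : 0 < √(1 + (P.derivative.eval x) ^ 2) :=
  Real.sqrt_pos.2 (by positivity)

theorem one_le_s (P : ℝ[X]) (x : ℝ) : 1 ≤ √(1 + (P.derivative.eval x) ^ 2) := by
  rw [Real.one_le_sqrt]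
  nlinarith [sq_nonneg (P.derivative.eval x)]

theorem cont_dens (P G : ℝ[X]) :
    Continuous fun x => P.derivative.eval x * G.derivative.eval x /
      √(1 + (P.derivative.eval x) ^ 2) := by
  apply Continuous.div
  · fun_prop
  · exact cont_s P
  · intro x
    exact (s_pos P x).ne'

theorem sup_bound {P G : ℝ[X]} (hP : Bdd P)
    (hG : ∀ x ∈ Icc (-1 : ℝ) 1, |P.eval x| = 1 → P.eval x * G.eval x ≤ 0) {δ : ℝ} (hδ : 0 < δ) :
    ∃ ε0 > 0, ∀ ε, 0 < ε → ε ≤ ε0 → ∀ x ∈ Icc (-1 : ℝ) 1,
      |P.eval x + ε * G.eval x| ≤ 1 + δ * ε := by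
  obtain ⟨C, hC0, hC⟩ : ∃ C > 0, ∀ x ∈ Icc (-1 : ℝ) 1, |G.eval x| ≤ C := by
    obtain ⟨C, hC⟩ := isCompact_Icc.exists_bound_of_continuousOn (s := Icc (-1 : ℝ) 1)
      (f := fun x => G.eval x) (by fun_prop)
    refine ⟨max C 1, by positivity, fun x hx => ?_⟩
    exact (hC x hx).trans (le_max_left _ _)
  obtain ⟨κ, hκ0, hκ⟩ : ∃ κ > 0, ∀ x ∈ Icc (-1 : ℝ) 1, δ / 2 ≤ P.eval x * G.eval x →
      |P.eval x| ≤ 1 - κ := by
    set S := Icc (-1 : ℝ) 1 ∩ {x | δ / 2 ≤ P.eval x * G.eval x} with hS
    have hSc : IsCompact S := isCompact_Icc.inter_right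
      (isClosed_le (by fun_prop) (by fun_prop))
    rcases S.eq_empty_or_nonempty with he | hne
    · refine ⟨1, one_pos, fun x hx hx2 => ?_⟩
      have : x ∈ S := ⟨hx, hx2⟩
      rw [he] at this
      exact absurd this (by simp)
    · obtain ⟨y, hyS, hy⟩ := hSc.exists_isMaxOn hne (f := fun x => |P.eval x|) (by fun_prop)
      have hy1 : |P.eval y| < 1 := by
        refine lt_of_le_of_ne (hP y hyS.1) fun h => ?_
        have := hG y hyS.1 h
        have h2 : δ / 2 ≤ P.eval y * G.eval y := hyS.2
        linarith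
      refine ⟨1 - |P.eval y|, by linarith, fun x hx hx2 => ?_⟩
      have := hy (show x ∈ S from ⟨hx, hx2⟩)
      have h3 : |P.eval x| ≤ |P.eval y| := this
      linarith
  refine ⟨min (1 / (2 * C)) (κ / C), by positivity, fun ε hε hε0 x hx => ?_⟩
  have h1 : ε ≤ 1 / (2 * C) := hε0.trans (min_le_left _ _)
  have h2 : ε ≤ κ / C := hε0.trans (min_le_right _ _)
  have h1' : ε * C ≤ 1 / 2 := by
    rw [le_div_iff₀ (by positivity)] at h1
    linarith
  have h2' : ε * C ≤ κ := by
    rw [le_div_iff₀ (by positivity)] at h2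
    linarith
  have hGx := hC x hx
  have hPx := hP x hx
  have hεG : |ε * G.eval x| ≤ ε * C := by
    rw [abs_mul, abs_of_pos hε]
    gcongr
  by_cases hc : δ / 2 ≤ P.eval x * G.eval x
  · have := hκ x hx hc
    calc |P.eval x + ε * G.eval x| ≤ |P.eval x| + |ε * G.eval x| := abs_add_le _ _
      _ ≤ 1 + δ * ε := by nlinarith
  · push Not at hc
    by_cases hh : |P.eval x| < 1 / 2
    · calc |P.eval x + ε * G.eval x| ≤ |P.eval x| + |ε * G.eval x| := abs_add_le _ _
        _ ≤ 1 + δ * ε := by nlinarith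
    · push Not at hh
      rcases le_total 0 (P.eval x) with hs | hs
      · rw [abs_of_nonneg hs] at hh hPx
        have hg : G.eval x < δ := by
          by_contra hcon
          push Not at hcon
          nlinarith
        rw [abs_le] at hεG ⊢
        constructor <;> nlinarith [hεG.1, hεG.2]
      · rw [abs_of_nonpos hs] at hh hPx
        have hg : -δ < G.eval x := by
          by_contra hcon
          push Not at hcon
          nlinarith
        rw [abs_le] at hεG ⊢
        constructor <;> nlinarith [hεG.1, hεG.2]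

theorem deg_C_mul (c : ℝ) (Q : ℝ[X]) : (C c * Q).degree ≤ Q.degree := by
  refine (degree_mul_le _ _).trans ?_
  calc (C c).degree + Q.degree ≤ 0 + Q.degree := by
        gcongr
        exact degree_C_le
    _ = Q.degree := zero_add _

theorem tangent (p g ε : ℝ) :
    √(1 + p ^ 2) + ε * (p * g / √(1 + p ^ 2)) ≤ √(1 + (p + ε * g) ^ 2) := by
  have hs : 0 < √(1 + p ^ 2) := Real.sqrt_pos.2 (by positivity)
  have hsq : √(1 + p ^ 2) ^ 2 = 1 + p ^ 2 := Real.sq_sqrt (by positivity)
  have h1 : √(1 + p ^ 2) + ε * (p * g / √(1 + p ^ 2)) =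
      (1 + p * (p + ε * g)) / √(1 + p ^ 2) := by
    field_simp
    rw [hsq]
    ring
  rw [h1, div_le_iff₀ hs, ← Real.sqrt_mul (by positivity)]
  apply Real.le_sqrt_of_sq_le
  nlinarith [sq_nonneg (ε * g)]

theorem scale {c : ℝ} (hc0 : 0 ≤ c) (hc1 : c ≤ 1) (p : ℝ) :
    c * √(1 + p ^ 2) ≤ √(1 + (c * p) ^ 2) := by
  apply Real.le_sqrt_of_sq_le
  rw [mul_pow, Real.sq_sqrt (by positivity)]
  nlinarith [mul_nonneg hc0 (sub_nonneg.2 hc1)]

/-- First order condition: no direction that points inwards at all contact points increases the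
arc length of an extremal polynomial. -/
theorem kkt {n : ℕ} {a b : ℝ} {P : ℝ[X]} (h : Ext n a b P) (hab : a ≤ b) {G : ℝ[X]}
    (hGd : G.degree ≤ n)
    (hG : ∀ x ∈ Icc (-1 : ℝ) 1, |P.eval x| = 1 → P.eval x * G.eval x ≤ 0) :
    (∫ x in a..b, P.derivative.eval x * G.derivative.eval x / √(1 + (P.derivative.eval x) ^ 2))
      ≤ 0 := by
  by_contra hcon
  push Not at hcon
  set I := ∫ x in a..b, P.derivative.eval x * G.derivative.eval x /
    √(1 + (P.derivative.eval x) ^ 2) with hI
  have hL0 : 0 ≤ arc a b P := integral_nonneg hab fun x _ => Real.sqrt_nonneg _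
  set L := arc a b P with hL
  set δ := I / (2 * (L + 1)) with hδ
  have hδ0 : 0 < δ := by positivity
  obtain ⟨ε, hε0, hε⟩ := sup_bound h.bdd hG hδ0
  have hb := hε ε hε0 le_rfl
  set c := (1 + δ * ε)⁻¹ with hc
  have hpos : 0 < 1 + δ * ε := by positivity
  have hc0 : 0 < c := inv_pos.2 hpos
  have hc1 : c ≤ 1 := inv_le_one_of_one_le₀ (by nlinarith)
  have hcm : c * (1 + δ * ε) = 1 := inv_mul_cancel₀ hpos.ne'
  have hQ := h.max (C c * (P + C ε * G)) ?_ ?_
  · have h1 : c * (L + ε * I) ≤ arc a b (C c * (P + C ε * G)) := by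
      have e1 : c * (L + ε * I) = ∫ x in a..b, c * (√(1 + (P.derivative.eval x) ^ 2) +
          ε * (P.derivative.eval x * G.derivative.eval x / √(1 + (P.derivative.eval x) ^ 2))) := by
        rw [intervalIntegral.integral_const_mul, intervalIntegral.integral_add,
          intervalIntegral.integral_const_mul, hL, hI, arc]
        · exact (cont_s P).intervalIntegrable _ _
        · exact ((cont_dens P G).const_mul ε).intervalIntegrable _ _
      rw [e1, arc]
      apply integral_mono_on hab
      · exact (((cont_s P).add ((cont_dens P G).const_mul ε)).const_mul c).intervalIntegrable _ _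
      · exact (cont_s _).intervalIntegrable _ _
      · intro x _
        have e2 : (C c * (P + C ε * G)).derivative.eval x =
            c * (P.derivative.eval x + ε * G.derivative.eval x) := by
          simp [derivative_mul]
        rw [e2]
        exact (mul_le_mul_of_nonneg_left (tangent _ _ _) hc0.le).trans (scale hc0.le hc1 _)
    have h2 : c * (L + ε * I) ≤ L := h1.trans hQ
    have h3 : L + ε * I ≤ (1 + δ * ε) * L := by
      have := mul_le_mul_of_nonneg_left h2 hpos.le
      nlinarith
    have h4 : I ≤ δ * L := by nlinarith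
    have h5 : δ * (2 * (L + 1)) = I := by
      rw [hδ]
      field_simp
    nlinarith
  · refine (deg_C_mul c _).trans ?_
    exact (degree_add_le _ _).trans (max_le h.deg ((deg_C_mul ε _).trans hGd))
  · intro x hx
    have : (C c * (P + C ε * G)).eval x = c * (P.eval x + ε * G.eval x) := by simp
    rw [this, abs_mul, abs_of_pos hc0]
    calc c * |P.eval x + ε * G.eval x| ≤ c * (1 + δ * ε) := by
          gcongr
          exact hb x hx
      _ = 1 := hcm

/-- Positivity of the first variation in the direction `-h P'`, `h` decreasing to `0` at `b`. -/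
theorem pos_integral {a b : ℝ} (hab : a < b) {P G : ℝ[X]} (hP : P.derivative ≠ 0)
    {h h' : ℝ → ℝ} (hd : ∀ x ∈ Ioo a b, HasDerivAt h (h' x) x)
    (hneg : ∀ x ∈ Ioo a b, h' x < 0) (hnn : ∀ x ∈ Ioo a b, 0 ≤ h x)
    (hlim : Tendsto h (𝓝[<] b) (𝓝 0))
    (hG : ∀ x ∈ Ioo a b, G.eval x = -h x * P.derivative.eval x) :
    0 < ∫ x in a..b, P.derivative.eval x * G.derivative.eval x /
      √(1 + (P.derivative.eval x) ^ 2) := by
  set s : ℝ → ℝ := fun x => √(1 + (P.derivative.eval x) ^ 2) with hs
  set I : ℝ → ℝ := fun y => ∫ x in a..y, P.derivative.eval x * G.derivative.eval x /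
    √(1 + (P.derivative.eval x) ^ 2) with hI
  have hId : ∀ x, HasDerivAt I (P.derivative.eval x * G.derivative.eval x / s x) x := fun x =>
    integral_hasDerivAt_right ((cont_dens P G).intervalIntegrable _ _)
      ((cont_dens P G).stronglyMeasurableAtFilter _ _) (cont_dens P G).continuousAt
  have hIc : Continuous I := continuous_iff_continuousAt.2 fun x => (hId x).continuousAt
  have hsd : ∀ x, HasDerivAt s (P.derivative.eval x * P.derivative.derivative.eval x / s x) x := by
    intro x
    have h1 : HasDerivAt (fun x => 1 + (P.derivative.eval x) ^ 2)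
        (2 * P.derivative.eval x * P.derivative.derivative.eval x) x := by
      have := ((P.derivative.hasDerivAt x).pow 2).const_add 1
      simpa using this
    have h2 := h1.sqrt (by positivity)
    convert h2 using 1
    simp only [hs]
    field_simp
  have hs1 : ∀ x, 1 ≤ s x := fun x => one_le_s P x
  have hsq : ∀ x, s x ^ 2 = 1 + (P.derivative.eval x) ^ 2 := fun x =>
    Real.sq_sqrt (by positivity)
  have hGd : ∀ x ∈ Ioo a b, G.derivative.eval x =
      -(h' x * P.derivative.eval x + h x * P.derivative.derivative.eval x) := by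
    intro x hx
    have e : (fun y => G.eval y) =ᶠ[𝓝 x] fun y => -h y * P.derivative.eval y := by
      filter_upwards [Ioo_mem_nhds hx.1 hx.2] with y hy
      exact hG y hy
    have h1 : HasDerivAt (fun y => -h y * P.derivative.eval y)
        (-h' x * P.derivative.eval x + -h x * P.derivative.derivative.eval x) x :=
      (hd x hx).neg.mul (P.derivative.hasDerivAt x)
    have h2 := (G.hasDerivAt x).congr_of_eventuallyEq e.symm
    rw [h2.unique h1]
    ring
  set J : ℝ → ℝ := fun x => I x + h x * (s x - 1) with hJ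
  have hJd : ∀ x ∈ Ioo a b, HasDerivAt J (-h' x * (1 - (s x)⁻¹)) x := by
    intro x hx
    have h1 : HasDerivAt J (P.derivative.eval x * G.derivative.eval x / s x +
        (h' x * (s x - 1) +
          h x * (P.derivative.eval x * P.derivative.derivative.eval x / s x))) x :=
      (hId x).add ((hd x hx).mul ((hsd x).sub_const 1))
    refine h1.congr_deriv ?_
    rw [hGd x hx]
    have hsx : s x ≠ 0 := by linarith [hs1 x]
    field_simp
    have := hsq x
    have h3 : P.derivative.eval x ^ 2 = s x ^ 2 - 1 := by linarith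
    ring_nf
    rw [show P.derivative.eval x ^ 2 * h' x = (s x ^ 2 - 1) * h' x by rw [h3]]
    ring
  have hJnn : ∀ x ∈ Ioo a b, 0 ≤ -h' x * (1 - (s x)⁻¹) := by
    intro x hx
    have : (s x)⁻¹ ≤ 1 := inv_le_one_of_one_le₀ (hs1 x)
    exact mul_nonneg (by linarith [hneg x hx]) (by linarith)
  have hmono : MonotoneOn J (Ioo a b) := by
    apply monotoneOn_of_deriv_nonneg (convex_Ioo a b)
    · intro x hx
      exact (hJd x hx).continuousAt.continuousWithinAt
    · intro x hx
      rw [interior_Ioo] at hx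
      exact (hJd x hx).differentiableAt.differentiableWithinAt
    · intro x hx
      rw [interior_Ioo] at hx
      rw [(hJd x hx).deriv]
      exact hJnn x hx
  -- a subinterval without zeros
  obtain ⟨x0, hx0, hx0P⟩ : ∃ x0 ∈ Ioo a b, P.derivative.eval x0 ≠ 0 := by
    by_contra hcon
    push Not at hcon
    exact hP (eq_zero_of_infinite_isRoot _ ((Ioo_infinite hab).mono hcon))
  obtain ⟨r, hr0, hr⟩ : ∃ r > 0, ∀ x, |x - x0| < r → x ∈ Ioo a b ∧ P.derivative.eval x ≠ 0 := by
    have h0 : ∀ᶠ x in 𝓝 x0, x ∈ Ioo a b := Ioo_mem_nhds hx0.1 hx0.2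
    have h1 : ∀ᶠ x in 𝓝 x0, x ∈ Ioo a b ∧ P.derivative.eval x ≠ 0 :=
      h0.and (P.derivative.continuous.continuousAt.eventually_ne hx0P)
    rw [Metric.eventually_nhds_iff] at h1
    obtain ⟨r, hr0, hr⟩ := h1
    exact ⟨r, hr0, fun x hx => hr (by rwa [Real.dist_eq])⟩
  set c := x0 - r / 2 with hc
  set d := x0 + r / 2 with hd'
  have hcd : c < d := by simp only [hc, hd']; linarith
  have hcd_mem : ∀ x ∈ Icc c d, x ∈ Ioo a b ∧ P.derivative.eval x ≠ 0 := by
    intro x hx
    apply hr
    rw [abs_lt]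
    constructor <;> linarith [hx.1, hx.2]
  have hstrict : J c < J d := by
    have : StrictMonoOn J (Icc c d) := by
      apply strictMonoOn_of_deriv_pos (convex_Icc c d)
      · intro x hx
        exact (hJd x (hcd_mem x hx).1).continuousAt.continuousWithinAt
      · intro x hx
        rw [interior_Icc] at hx
        have hx' := hcd_mem x ⟨hx.1.le, hx.2.le⟩
        rw [(hJd x hx'.1).deriv]
        have h1 : 1 < s x := by
          have h2 : 0 < P.derivative.eval x ^ 2 := by
            have := hx'.2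
            positivity
          nlinarith [hsq x, hs1 x]
        have h2 : (s x)⁻¹ < 1 := inv_lt_one_of_one_lt₀ h1
        exact mul_pos (by linarith [hneg x hx'.1]) (by linarith)
    exact this (left_mem_Icc.2 hcd.le) (right_mem_Icc.2 hcd.le) hcd
  have hcm := (hcd_mem c (left_mem_Icc.2 hcd.le)).1
  have hdm := (hcd_mem d (right_mem_Icc.2 hcd.le)).1
  have hJb : J d ≤ I b := by
    have ht : Tendsto J (𝓝[<] b) (𝓝 (I b + 0 * (s b - 1))) := by
      apply Tendsto.add
      · exact hIc.continuousAt.tendsto.mono_left nhdsWithin_le_nhds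
      · apply hlim.mul
        apply Tendsto.sub_const
        exact (cont_s P).continuousAt.tendsto.mono_left nhdsWithin_le_nhds
    rw [zero_mul, add_zero] at ht
    apply ge_of_tendsto ht
    have : Ioo d b ∈ 𝓝[<] b := Ioo_mem_nhdsLT hdm.2
    filter_upwards [this] with y hy
    exact hmono hdm ⟨hdm.1.trans hy.1, hy.2⟩ hy.1.le
  have hJa : 0 ≤ J c := by
    have ht : Tendsto I (𝓝[>] a) (𝓝 (I a)) :=
      hIc.continuousAt.tendsto.mono_left nhdsWithin_le_nhds
    have hIa : I a = 0 := by simp [hI]
    rw [hIa] at ht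
    apply le_of_tendsto ht
    have : Ioo a c ∈ 𝓝[>] a := Ioo_mem_nhdsGT hcm.1
    filter_upwards [this] with y hy
    have hym : y ∈ Ioo a b := ⟨hy.1, hy.2.trans hcm.2⟩
    have h1 : I y ≤ J y := by
      have : 0 ≤ h y * (s y - 1) := mul_nonneg (hnn y hym) (by linarith [hs1 y])
      simp only [hJ]
      linarith
    exact h1.trans (hmono hym hcm hy.2.le)
  change 0 < I b
  linarith

end

end Pool.Agent.Helper40.AS
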