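import Pool.Agent.Helper40.AS.Alt

/-!
General windows: the number of exceptional critical points is bounded independently of `n`.
-/

set_option autoImplicit false

namespace Pool.Agent.Helper40.AS

open Polynomial Set Filter Topology

noncomputable section

variable {n : ℕ} {a b : ℝ} {P : ℝ[X]}

/-- Admissible divisors: `m` roots, `m - j` of them are spare for the right end of the window
and `m - j'` for the left end. -/
structure Adm (a b : ℝ) (D : ℝ[X]) (j j' : ℕ) : Prop where
  pos : ∀ x ∈ Ioo (-1 : ℝ) 1, 0 < D.eval x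
  hr : ∀ x ∈ Ioo a b, 0 ≤ j * D.eval x + (b - x) * D.derivative.eval x
  hl : ∀ x ∈ Ioo a b, 0 ≤ j' * D.eval x - (x - a) * D.derivative.eval x

theorem Adm.mul (ha : -1 < a) (hb : b < 1) {D₁ D₂ : ℝ[X]} {j₁ j₂ j₁' j₂' : ℕ}
    (h₁ : Adm a b D₁ j₁ j₁') (h₂ : Adm a b D₂ j₂ j₂') :
    Adm a b (D₁ * D₂) (j₁ + j₂) (j₁' + j₂') := by
  have hsub : ∀ x ∈ Ioo a b, x ∈ Ioo (-1 : ℝ) 1 := fun x hx =>
    ⟨by linarith [hx.1], by linarith [hx.2]⟩
  refine ⟨fun x hx => ?_, fun x hx => ?_, fun x hx => ?_⟩
  · rw [eval_mul]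
    exact mul_pos (h₁.pos x hx) (h₂.pos x hx)
  · have p1 := h₁.pos x (hsub x hx)
    have p2 := h₂.pos x (hsub x hx)
    have q1 := mul_nonneg p2.le (h₁.hr x hx)
    have q2 := mul_nonneg p1.le (h₂.hr x hx)
    rw [derivative_mul, eval_add, eval_mul, eval_mul, eval_mul]
    push_cast
    nlinarith
  · have p1 := h₁.pos x (hsub x hx)
    have p2 := h₂.pos x (hsub x hx)
    have q1 := mul_nonneg p2.le (h₁.hl x hx)
    have q2 := mul_nonneg p1.le (h₂.hl x hx)
    rw [derivative_mul, eval_add, eval_mul, eval_mul, eval_mul]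
    push_cast
    nlinarith

theorem adm_one : Adm a b 1 0 0 := by
  refine ⟨fun x _ => by simp, fun x _ => by simp, fun x _ => by simp⟩

theorem adm_left {y : ℝ} (ha : -1 < a) (hy : y ≤ -1) : Adm a b (X - C y) 0 1 := by
  refine ⟨fun x hx => ?_, fun x hx => ?_, fun x hx => ?_⟩
  · simp only [eval_sub, eval_X, eval_C]
    linarith [hx.1]
  · simp only [derivative_sub, derivative_C, derivative_X, eval_sub, eval_X, eval_C, eval_one,
      eval_zero]
    push_cast
    linarith [hx.2]
  · simp only [derivative_sub, derivative_C, derivative_X, eval_sub, eval_X, eval_C, eval_one,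
      eval_zero]
    push_cast
    linarith [hx.2]

theorem adm_right {y : ℝ} (hb : b < 1) (hy : 1 ≤ y) : Adm a b (C y - X) 1 0 := by
  refine ⟨fun x hx => ?_, fun x hx => ?_, fun x hx => ?_⟩
  · simp only [eval_sub, eval_X, eval_C]
    linarith [hx.2]
  · simp only [derivative_sub, derivative_C, derivative_X, eval_sub, eval_X, eval_C, eval_one,
      eval_zero]
    push_cast
    linarith [hx.2]
  · simp only [derivative_sub, derivative_C, derivative_X, eval_sub, eval_X, eval_C, eval_one,
      eval_zero]
    push_cast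
    linarith [hx.1]

theorem adm_quad {u v : ℝ} (hv : v ≠ 0)
    (hD : (u - a) * (b - u) ≤ v ^ 2) :
    Adm a b (quad u v) 2 2 := by
  have hv2 : 0 < v ^ 2 := by positivity
  refine ⟨fun x hx => by rw [quad_eval]; positivity, fun x hx => ?_, fun x hx => ?_⟩
  · have hx1 := hx.1
    have hx2 := hx.2
    rw [quad_eval, quad_der]
    push_cast
    have key : 0 ≤ (x - u) * (b - u) + v ^ 2 := by
      rcases lt_or_ge u b with h1 | h1
      · nlinarith [mul_pos (show 0 < x - a by linarith) (show 0 < b - u by linarith)]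
      · nlinarith [mul_nonneg (show 0 ≤ u - x by linarith) (show 0 ≤ u - b by linarith)]
    nlinarith
  · have hx1 := hx.1
    have hx2 := hx.2
    rw [quad_eval, quad_der]
    push_cast
    have key : 0 ≤ (u - x) * (u - a) + v ^ 2 := by
      rcases lt_or_ge a u with h1 | h1
      · nlinarith [mul_pos (show 0 < b - x by linarith) (show 0 < u - a by linarith)]
      · nlinarith [mul_nonneg (show 0 ≤ x - u by linarith) (show 0 ≤ a - u by linarith)]
    nlinarith

theorem adm_quad_r {u v : ℝ} (hv : v ≠ 0)
    (hD : (u - a) * (b - u) ≤ v ^ 2) (h : (b - a) ^ 2 ≤ (b - u) ^ 2 + v ^ 2) :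
    Adm a b (quad u v) 1 2 := by
  have h0 := adm_quad hv hD
  refine ⟨h0.pos, fun x hx => ?_, h0.hl⟩
  have hx1 := hx.1
  have hx2 := hx.2
  rw [quad_eval, quad_der]
  push_cast
  nlinarith [mul_pos (show 0 < x - a by linarith) (show 0 < 2 * b - a - x by linarith)]

theorem adm_quad_l {u v : ℝ} (hv : v ≠ 0)
    (hD : (u - a) * (b - u) ≤ v ^ 2) (h : (b - a) ^ 2 ≤ (u - a) ^ 2 + v ^ 2) :
    Adm a b (quad u v) 2 1 := by
  have h0 := adm_quad hv hD
  refine ⟨h0.pos, h0.hr, fun x hx => ?_⟩
  have hx1 := hx.1
  have hx2 := hx.2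
  rw [quad_eval, quad_der]
  push_cast
  nlinarith [mul_pos (show 0 < b - x by linarith) (show 0 < b + x - 2 * a by linarith)]

/-- The exclusion lemma for many roots. -/
theorem many (h : Ext n a b P) (hn : 1 ≤ n) (ha : -1 < a) (hab : a < b) (hb : b < 1)
    {N : ℕ} (hN : b - a ≤ N * (1 + a)) {D : ℝ[X]} {m j j' : ℕ} (hm : Even m)
    (hDm : m + P.natDegree ≤ D.natDegree + n) (hDv : D ∣ P.derivative) (hD : Adm a b D j j')
    (hk : j + N ≤ m) : False := by
  obtain ⟨R, hR⟩ := hDv
  have hN1 : 1 ≤ N := by
    by_contra hcon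
    have h0 : N = 0 := by omega
    rw [h0] at hN
    push_cast at hN
    linarith
  have hm1 : m ≠ 0 := by omega
  have hDb : 0 < D.eval b := hD.pos b ⟨by linarith, hb⟩
  refine excl h hn hab (W := (C b - X) ^ m * (1 + X)) (D := D) hR ?_ ?_ ?_
    ?_ ?_ ?_ ?_ ?_
  · have hW1 : ((C b - X) ^ m : ℝ[X]).natDegree ≤ m := by
      refine natDegree_pow_le.trans ?_
      have : (C b - X : ℝ[X]).natDegree ≤ 1 := by compute_degree
      nlinarith
    have hW2 : (1 + X : ℝ[X]).natDegree ≤ 1 := by compute_degree
    have hW : ((C b - X) ^ m * (1 + X) : ℝ[X]).natDegree ≤ m + 1 :=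
      natDegree_mul_le.trans (by omega)
    omega
  · intro x hx hx1
    have h1 := contact_int h.bdd hx hx1
    rw [hR, eval_mul] at h1
    rcases mul_eq_zero.1 h1 with h2 | h2
    · exact absurd h2 (hD.pos x hx).ne'
    · exact h2
  · intro h1
    have h2 := end_one h.bdd h1 hR hD.pos
    simp only [eval_mul, eval_add, eval_one, eval_pow, eval_sub, eval_X, eval_C]
    have h3 : 0 ≤ (b - 1) ^ m := hm.pow_nonneg _
    nlinarith [mul_nonneg h2 h3]
  · intro _
    simp
  · intro x hx
    exact hD.pos x ⟨by linarith [hx.1], by linarith [hx.2]⟩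
  · intro x hx
    simp only [eval_mul, eval_add, eval_one, eval_pow, eval_sub, eval_X, eval_C]
    exact mul_nonneg (pow_nonneg (by linarith [hx.2]) _) (by linarith [hx.1])
  · apply lim_zero
    · simp [hm1]
    · exact hDb.ne'
  · intro x hx
    have hx1 := hx.1
    have hx2 := hx.2
    have hDx := hD.pos x ⟨by linarith, by linarith⟩
    have hcx := hD.hr x hx
    obtain ⟨m', rfl⟩ : ∃ m', m = m' + 1 := ⟨m - 1, by omega⟩
    have e : (((C b - X) ^ (m' + 1) * (1 + X) : ℝ[X])).derivative.eval x * D.eval x -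
        ((C b - X) ^ (m' + 1) * (1 + X) : ℝ[X]).eval x * D.derivative.eval x =
        (b - x) ^ m' * (D.eval x * ((b - x) - (m' + 1) * (1 + x)) -
          (1 + x) * ((b - x) * D.derivative.eval x)) := by
      simp only [derivative_mul, derivative_add, derivative_one, derivative_pow, derivative_sub,
        derivative_C, derivative_X, eval_add, eval_mul, eval_pow, eval_sub, eval_X, eval_C,
        eval_one, eval_zero, Nat.add_sub_cancel]
      push_cast
      ring
    rw [e]
    apply mul_neg_of_pos_of_neg (pow_pos (by linarith) _)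
    have hk' : (j : ℝ) + N ≤ (m' : ℝ) + 1 := by exact_mod_cast hk
    have hNx : b - x < N * (1 + x) := by
      have : (N : ℝ) * (1 + a) ≤ N * (1 + x) := by
        apply mul_le_mul_of_nonneg_left (by linarith) (Nat.cast_nonneg N)
      linarith
    have h1x : 0 < 1 + x := by linarith
    have k1 := mul_nonneg h1x.le hcx
    have k2 : 0 ≤ (1 + x) * (D.eval x * ((m' : ℝ) + 1 - j - N)) :=
      mul_nonneg h1x.le (mul_nonneg hDx.le (by linarith))
    have k3 : 0 < D.eval x * (N * (1 + x) - (b - x)) := mul_pos hDx (by linarith)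
    nlinarith

theorem adm_refl {D : ℝ[X]} {j j' : ℕ} (h : Adm a b D j j') :
    Adm (-b) (-a) (D.comp (-X)) j' j := by
  refine ⟨fun x hx => ?_, fun x hx => ?_, fun x hx => ?_⟩
  · rw [comp_eval]
    exact h.pos _ ⟨by linarith [hx.2], by linarith [hx.1]⟩
  · rw [comp_eval, comp_der_eval]
    have := h.hl (-x) ⟨by linarith [hx.2], by linarith [hx.1]⟩
    linarith
  · rw [comp_eval, comp_der_eval]
    have := h.hr (-x) ⟨by linarith [hx.2], by linarith [hx.1]⟩
    linarith

theorem natDegree_refl (D : ℝ[X]) : (D.comp (-X)).natDegree = D.natDegree := by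
  apply le_antisymm
  · have := natDegree_comp_le (p := D) (q := -X)
    rwa [natDegree_neg, natDegree_X, mul_one] at this
  · have := natDegree_comp_le (p := D.comp (-X)) (q := -X)
    rwa [natDegree_neg, natDegree_X, mul_one, comp_comp] at this

/-- Both orientations. -/
theorem many_both (h : Ext n a b P) (hn : 1 ≤ n) (ha : -1 < a) (hab : a < b) (hb : b < 1)
    {N : ℕ} (hN : b - a ≤ N * (1 + a)) (hN' : b - a ≤ N * (1 - b)) {D : ℝ[X]} {m j j' : ℕ}
    (hm : Even m) (hDm : m + P.natDegree ≤ D.natDegree + n) (hDv : D ∣ P.derivative)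
    (hD : Adm a b D j j') (hk : j + j' + 2 * N ≤ 2 * m + 1) : False := by
  by_cases h1 : j + N ≤ m
  · exact many h hn ha hab hb hN hm hDm hDv hD h1
  · refine many (ext_refl h) hn (by linarith : -1 < -b) (by linarith : -b < -a)
      (by linarith : -a < 1) (N := N) (by linarith) (D := D.comp (-X)) (m := m) (j := j')
      (j' := j) hm ?_ ?_ (adm_refl hD) (by omega)
    · rw [natDegree_refl, natDegree_refl]
      exact hDm
    · obtain ⟨R, hR⟩ := hDv
      refine ⟨-(R.comp (-X)), ?_⟩
      rw [comp_der, hR, mul_comp]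
      ring

/-! Extraction of the exceptional part. -/

theorem quad_map (z : ℂ) : (quad z.re z.im).map (algebraMap ℝ ℂ) =
    (X - C z) * (X - C (starRingEnd ℂ z)) := by
  have h1 : (z.re : ℂ) + z.im * Complex.I = z := Complex.re_add_im z
  have h2 : starRingEnd ℂ z = (z.re : ℂ) - z.im * Complex.I := by
    apply Complex.ext <;> simp
  simp only [quad, Polynomial.map_add, Polynomial.map_pow, Polynomial.map_sub, map_X, map_C,
    Complex.coe_algebraMap]
  rw [h2]
  conv_rhs => rw [← h1]
  simp only [map_add, map_sub, map_mul, Complex.ofReal_pow, map_pow, Complex.add_re,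
    Complex.ofReal_re, Complex.mul_re, Complex.I_re, mul_zero, Complex.ofReal_im, Complex.I_im,
    mul_one, sub_self, add_zero, Complex.add_im, Complex.mul_im, zero_add]
  have h3 : (C Complex.I : ℂ[X]) ^ 2 = -1 := by
    rw [← C_pow, Complex.I_sq]
    simp
  linear_combination (C (z.im : ℂ)) ^ 2 * h3

theorem quad_aroots (z : ℂ) : (quad z.re z.im).aroots ℂ = {z, starRingEnd ℂ z} := by
  rw [aroots, quad_map, roots_mul (mul_ne_zero (X_sub_C_ne_zero _) (X_sub_C_ne_zero _)),
    roots_X_sub_C, roots_X_sub_C]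
  rfl

/-- the exceptional points: neither near the window nor contact points -/
def Exc (a b : ℝ) (P : ℝ[X]) (z : ℂ) : Prop := ¬ (Lens a b z ∨ Contact P z)

theorem lens_conj (hab : a < b) (z : ℂ) : Lens a b (starRingEnd ℂ z) ↔ Lens a b z := by
  rw [lens_iff hab, lens_iff hab]
  simp

theorem contact_conj (z : ℂ) : Contact P (starRingEnd ℂ z) ↔ Contact P z := by
  simp [Contact]

theorem exc_conj (hab : a < b) (z : ℂ) : Exc a b P (starRingEnd ℂ z) ↔ Exc a b P z := by
  rw [Exc, Exc, lens_conj hab, contact_conj]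

open Classical in
theorem extract (ha : -1 < a) (hab : a < b) (hb : b < 1)
    (hreal : ∀ z : ℂ, aeval z P.derivative = 0 → Exc a b P z → z.im = 0 →
      (z.re ≤ -1 ∨ 1 ≤ z.re)) :
    ∀ (d : ℕ) (q : ℝ[X]), q ≠ 0 → q.natDegree ≤ d → q ∣ P.derivative →
      ∃ D : ℝ[X], ∃ j j' : ℕ, D ∣ q ∧
        D.natDegree = ((q.aroots ℂ).filter (Exc a b P)).card ∧ Adm a b D j j' ∧
        2 * (j + j') ≤ 3 * ((q.aroots ℂ).filter (Exc a b P)).card ∧
        (Even ((q.aroots ℂ).filter (Exc a b P)).card ∨
          ∃ y : ℝ, (X - C y) ∣ q ∧ Exc a b P y) := by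
  intro d
  induction d with
  | zero =>
    intro q hq hd _
    have h0 : q.aroots ℂ = 0 := by
      have h1 := (IsAlgClosed.card_aroots_eq_natDegree (B := ℂ) (p := q))
      rw [← Multiset.card_eq_zero, h1]
      omega
    refine ⟨1, 0, 0, one_dvd _, ?_, adm_one, ?_, ?_⟩
    · rw [h0]; simp
    · rw [h0]; simp
    · rw [h0]; simp
  | succ d ih =>
    intro q hq hd hqP
    by_cases hex : ∃ z ∈ q.aroots ℂ, Exc a b P z
    · obtain ⟨z, hz, hzE⟩ := hex
      have hz0 : aeval z q = 0 := (mem_aroots.1 hz).2
      have hzP : aeval z P.derivative = 0 := by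
        obtain ⟨g, hg⟩ := hqP
        rw [hg, map_mul, hz0, zero_mul]
      by_cases him : z.im = 0
      · -- real exceptional root
        have hr := aeval_real him hz0
        have hdv : (X - C z.re) ∣ q := dvd_iff_isRoot.2 hr
        obtain ⟨q1, hq1⟩ := id hdv
        have hq10 : q1 ≠ 0 := by
          rintro rfl
          exact hq (by rw [hq1, mul_zero])
        have hdeg : q.natDegree = 1 + q1.natDegree := by
          rw [hq1, natDegree_mul (X_sub_C_ne_zero _) hq10, natDegree_X_sub_C]
        obtain ⟨D, j, j', hD1, hD2, hD3, hD4, -⟩ := ih q1 hq10 (by omega)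
          (Dvd.dvd.trans ⟨X - C z.re, by rw [hq1]; ring⟩ hqP)
        have hzr : z = ((z.re : ℝ) : ℂ) := Complex.ext (by simp) (by simp [him])
        have har : q.aroots ℂ = z ::ₘ q1.aroots ℂ := by
          have h1 : (X - C z.re : ℝ[X]).aroots ℂ = {z} := by
            rw [aroots_X_sub_C]
            exact congrArg _ hzr.symm
          rw [hq1, aroots_mul (mul_ne_zero (X_sub_C_ne_zero _) hq10), h1]
          rfl
        have hcard : ((q.aroots ℂ).filter (Exc a b P)).card =
            ((q1.aroots ℂ).filter (Exc a b P)).card + 1 := by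
          rw [har, Multiset.filter_cons_of_pos _ hzE, Multiset.card_cons]
        have hEy : Exc a b P ((z.re : ℝ) : ℂ) := by rw [← hzr]; exact hzE
        have hD0 : D ≠ 0 := fun h0 => hq10 (by
          rw [h0] at hD1
          exact zero_dvd_iff.1 hD1)
        rcases hreal z hzP hzE him with hy | hy
        · refine ⟨(X - C z.re) * D, 0 + j, 1 + j', ?_, ?_, (adm_left ha hy).mul ha hb hD3,
            ?_, Or.inr ⟨z.re, hdv, hEy⟩⟩
          · rw [hq1]
            exact mul_dvd_mul_left _ hD1
          · rw [hcard, natDegree_mul (X_sub_C_ne_zero _) hD0, natDegree_X_sub_C, hD2]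
            omega
          · rw [hcard]
            omega
        · refine ⟨(C z.re - X) * D, 1 + j, 0 + j', ?_, ?_, (adm_right hb hy).mul ha hb hD3,
            ?_, Or.inr ⟨z.re, hdv, hEy⟩⟩
          · rw [hq1]
            have : (C z.re - X) * D = -((X - C z.re) * D) := by ring
            rw [this]
            exact neg_dvd.2 (mul_dvd_mul_left _ hD1)
          · have : (C z.re - X) * D = -((X - C z.re) * D) := by ring
            rw [this, natDegree_neg, hcard, natDegree_mul (X_sub_C_ne_zero _) hD0,
              natDegree_X_sub_C, hD2]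
            omega
          · rw [hcard]
            omega
      · -- non-real pair
        have hdv : quad z.re z.im ∣ q := quad_dvd hz0 him
        obtain ⟨q1, hq1⟩ := hdv
        have hq10 : q1 ≠ 0 := by
          rintro rfl
          exact hq (by rw [hq1, mul_zero])
        have hqd0 : quad z.re z.im ≠ 0 := by
          intro h1
          have := quad_deg z.re z.im
          rw [h1, natDegree_zero] at this
          omega
        have hdeg : q.natDegree = 2 + q1.natDegree := by
          rw [hq1, natDegree_mul hqd0 hq10, quad_deg]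
        obtain ⟨D, j, j', hD1, hD2, hD3, hD4, hD5⟩ := ih q1 hq10 (by omega)
          (Dvd.dvd.trans ⟨quad z.re z.im, by rw [hq1]; ring⟩ hqP)
        have hD0 : D ≠ 0 := fun h0 => hq10 (by
          rw [h0] at hD1
          exact zero_dvd_iff.1 hD1)
        have har : q.aroots ℂ = z ::ₘ starRingEnd ℂ z ::ₘ q1.aroots ℂ := by
          rw [hq1, aroots_mul (mul_ne_zero hqd0 hq10), quad_aroots,
            Multiset.insert_eq_cons, Multiset.cons_add, Multiset.singleton_add]
        have hcard : ((q.aroots ℂ).filter (Exc a b P)).card =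
            ((q1.aroots ℂ).filter (Exc a b P)).card + 2 := by
          rw [har, Multiset.filter_cons_of_pos _ hzE,
            Multiset.filter_cons_of_pos _ ((exc_conj hab z).2 hzE), Multiset.card_cons,
            Multiset.card_cons]
        have hN : ¬ Lens a b z := fun h1 => hzE (Or.inl h1)
        have hDi : (z.re - a) * (b - z.re) ≤ z.im ^ 2 := by
          by_contra hcon
          push Not at hcon
          exact hN (disc_lens hab ((disc_iff hab z).2 hcon))
        have hpar : Even ((q.aroots ℂ).filter (Exc a b P)).card ∨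
            ∃ y : ℝ, (X - C y) ∣ q ∧ Exc a b P y := by
          rcases hD5 with h1 | ⟨y, h1, h2⟩
          · left
            rw [hcard]
            exact h1.add (by decide)
          · right
            exact ⟨y, by rw [hq1]; exact Dvd.dvd.mul_left h1 _, h2⟩
        rw [lens_iff hab, not_and_or, not_lt, not_lt] at hN
        rcases hN with h1 | h1
        · refine ⟨quad z.re z.im * D, 2 + j, 1 + j', ?_, ?_,
            (adm_quad_l him hDi (by linarith)).mul ha hb hD3, ?_, hpar⟩
          · rw [hq1]
            exact mul_dvd_mul_left _ hD1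
          · rw [hcard, natDegree_mul hqd0 hD0, quad_deg, hD2]
            omega
          · rw [hcard]
            omega
        · refine ⟨quad z.re z.im * D, 1 + j, 2 + j', ?_, ?_,
            (adm_quad_r him hDi (by nlinarith)).mul ha hb hD3, ?_, hpar⟩
          · rw [hq1]
            exact mul_dvd_mul_left _ hD1
          · rw [hcard, natDegree_mul hqd0 hD0, quad_deg, hD2]
            omega
          · rw [hcard]
            omega
    · push Not at hex
      have h0 : (q.aroots ℂ).filter (Exc a b P) = 0 := by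
        rw [Multiset.filter_eq_nil]
        exact fun z hz h1 => hex z hz h1
      refine ⟨1, 0, 0, one_dvd _, ?_, adm_one, ?_, ?_⟩
      · rw [h0]; simp
      · rw [h0]; simp
      · rw [h0]; simp

theorem exc_real' (h : Ext n a b P) (hn : 1 ≤ n) (ha : -1 ≤ a) (hab : a < b) (hb : b ≤ 1)
    {z : ℂ} (hz : aeval z P.derivative = 0) (hE : Exc a b P z) (him : z.im = 0) :
    z.re ≤ -1 ∨ 1 ≤ z.re := by
  have hr := aeval_real him hz
  by_contra hcon
  push Not at hcon
  obtain ⟨h1, h2⟩ := hcon
  rcases le_or_gt z.re a with h3 | h3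
  · exact hE (Or.inr ⟨him, h1, h2, (left_contact h hn hab hb h1 h3 hr).1⟩)
  rcases le_or_gt b z.re with h4 | h4
  · exact hE (Or.inr ⟨him, h1, h2, (right_contact h hn hab ha h2 h4 hr).1⟩)
  exact hE (Or.inl (lens_real hab him h3 h4))

open Classical in
/-- The number of exceptional critical points is at most `4 N - 3`. -/
theorem count_many (h : Ext n a b P) (hn : 1 ≤ n) (ha : -1 < a) (hab : a < b) (hb : b < 1)
    {N : ℕ} (hN : b - a ≤ N * (1 + a)) (hN' : b - a ≤ N * (1 - b)) :
    n + 2 ≤ ((P.derivative.aroots ℂ).filter fun z => Lens a b z ∨ Contact P z).card + 4 * N := by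
  have hN1 : 1 ≤ N := by
    by_contra hcon
    have h0 : N = 0 := by omega
    rw [h0] at hN
    push_cast at hN
    linarith
  by_contra hcon
  push Not at hcon
  have h2 := Multiset.filter_add_not (fun z => Lens a b z ∨ Contact P z) (P.derivative.aroots ℂ)
  have h3 := congrArg Multiset.card h2
  rw [Multiset.card_add, card_crit] at h3
  have hE : ((P.derivative.aroots ℂ).filter fun z => ¬ (Lens a b z ∨ Contact P z)) =
      (P.derivative.aroots ℂ).filter (Exc a b P) := by
    unfold Exc
    congr
  rw [hE] at h3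
  set g := ((P.derivative.aroots ℂ).filter fun z => Lens a b z ∨ Contact P z).card with hg
  set e := ((P.derivative.aroots ℂ).filter (Exc a b P)).card with he
  have hPd : P.natDegree ≤ n := natDegree_le_of_degree_le h.deg
  have hP0 : P.natDegree ≠ 0 := by
    intro h0
    apply ext_ne h hn hab
    rw [eq_C_of_natDegree_eq_zero h0, derivative_C]
  have hreal : ∀ z : ℂ, aeval z P.derivative = 0 → Exc a b P z → z.im = 0 →
      (z.re ≤ -1 ∨ 1 ≤ z.re) := fun z hz hzE him =>
    exc_real' h hn ha.le hab hb.le hz hzE him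
  obtain ⟨D, j, j', hD1, hD2, hD3, hD4, hD5⟩ := extract ha hab hb hreal _ P.derivative
    (ext_ne h hn hab) le_rfl dvd_rfl
  rw [← he] at hD2 hD4 hD5
  -- `e + (n - deg P) ≥ 4 N - 2`
  have hbig : 4 * N ≤ e + (n - P.natDegree) + 2 := by omega
  rcases Nat.even_or_odd (e + (n - P.natDegree)) with hev | hodd
  · exact many_both h hn ha hab hb hN hN' (m := e + (n - P.natDegree)) hev (by omega) hD1 hD3
      (by omega)
  · by_cases hr : 1 ≤ n - P.natDegree
    · refine many_both h hn ha hab hb hN hN' (m := e + (n - P.natDegree) - 1) ?_ (by omega)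
        hD1 hD3 ?_
      · obtain ⟨t, ht⟩ := hodd
        exact ⟨t, by omega⟩
      · have : 4 * N ≤ e + (n - P.natDegree) - 1 + 2 := by
          obtain ⟨t, ht⟩ := hodd
          omega
        omega
    · have hr0 : n - P.natDegree = 0 := by omega
      rw [hr0, add_zero] at hodd hbig
      rcases hD5 with h5 | ⟨y, hy1, hy2⟩
      · exact (Nat.not_even_iff_odd.2 hodd) h5
      · obtain ⟨q1, hq1⟩ := id hy1
        have hq10 : q1 ≠ 0 := by
          rintro rfl
          exact ext_ne h hn hab (by rw [hq1, mul_zero])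
        obtain ⟨D', i, i', hE1, hE2, hE3, hE4, -⟩ := extract ha hab hb hreal _ q1
          hq10 le_rfl ⟨X - C y, by rw [hq1]; ring⟩
        have har : P.derivative.aroots ℂ = (y : ℂ) ::ₘ q1.aroots ℂ := by
          have h1 : (X - C y : ℝ[X]).aroots ℂ = {(y : ℂ)} := aroots_X_sub_C y
          rw [hq1, aroots_mul (mul_ne_zero (X_sub_C_ne_zero _) hq10), h1]
          rfl
        have hcard : e = ((q1.aroots ℂ).filter (Exc a b P)).card + 1 := by
          rw [he, har, Multiset.filter_cons_of_pos _ hy2, Multiset.card_cons]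
        refine many_both h hn ha hab hb hN hN' (m := e - 1) ?_ (by omega)
          (hE1.trans ⟨X - C y, by rw [hq1]; ring⟩) hE3 ?_
        · obtain ⟨t, ht⟩ := hodd
          exact ⟨t, by omega⟩
        · obtain ⟨t, ht⟩ := hodd
          omega

end

end Pool.Agent.Helper40.AS
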