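import Pool.Agent.Helper40.AS.Cmp

/-!
Short windows: there are no critical points near the window.
-/

set_option autoImplicit false

namespace Pool.Agent.Helper40.AS

open Polynomial Set Real

noncomputable section

theorem arccos_facts {x : ℝ} (h1 : -1 ≤ x) (h2 : x ≤ 1) {σ : ℝ} (hσ : 0 ≤ σ)
    (h : σ ^ 2 ≤ 1 - x ^ 2) : cos (arccos x) = x ∧ σ ≤ sin (arccos x) ∧ sin (arccos x) ≤ 1 := by
  refine ⟨cos_arccos h1 h2, ?_, sin_le_one _⟩
  rw [sin_arccos]
  exact Real.le_sqrt_of_sq_le h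

/-- bound for the second derivative -/
theorem der2_bound {n : ℕ} (hn : 1 ≤ n) {P : ℝ[X]} (hdeg : P.natDegree ≤ n) (hb : Bdd P)
    {σ x : ℝ} (h1 : -1 ≤ x) (h2 : x ≤ 1) (hσ : 0 < σ) (h : σ ^ 2 ≤ 1 - x ^ 2)
    (hnσ : 20 ≤ n * σ) :
    |P.derivative.derivative.eval x| ≤ 21 / 20 * n ^ 2 / σ ^ 2 := by
  obtain ⟨e1, e2, e3⟩ := arccos_facts h1 h2 hσ.le h
  have hB := bern hn hdeg hb (arccos x)
  rw [e1] at hB
  set s := sin (arccos x) with hs
  obtain ⟨hB1, hB2⟩ := hB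
  have hn0 : (0 : ℝ) < n := by exact_mod_cast hn
  have hs0 : 0 < s := hσ.trans_le e2
  set D := P.derivative.eval x
  set E := P.derivative.derivative.eval x
  have hx1 : |x| ≤ 1 := abs_le.2 ⟨h1, h2⟩
  -- |D| ≤ n ^ 2 / 20
  have hD : |D| ≤ n ^ 2 / 20 := by
    rw [abs_mul, abs_of_pos hs0] at hB1
    have h3 : σ * |D| ≤ n := (mul_le_mul_of_nonneg_right e2 (abs_nonneg _)).trans hB1
    have h4 : 20 * |D| ≤ n * σ * |D| := mul_le_mul_of_nonneg_right hnσ (abs_nonneg _)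
    nlinarith
  have hE : s ^ 2 * |E| ≤ 21 / 20 * n ^ 2 := by
    have h5 : |s ^ 2 * E| ≤ n ^ 2 + |x * D| := by
      have : s ^ 2 * E = (s ^ 2 * E - x * D) + x * D := by ring
      rw [this]
      exact (abs_add_le _ _).trans (by linarith)
    rw [abs_mul, abs_mul, abs_of_pos (by positivity : (0 : ℝ) < s ^ 2)] at h5
    nlinarith [abs_nonneg D, abs_nonneg x]
  rw [le_div_iff₀ (by positivity)]
  have h6 : σ ^ 2 ≤ s ^ 2 := pow_le_pow_left₀ hσ.le e2 2
  nlinarith [abs_nonneg E]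

/-- Lipschitz bound for the derivative -/
theorem der_lip {a b : ℝ} {f : ℝ[X]} {M : ℝ} (hM : ∀ x ∈ Icc a b, |f.derivative.eval x| ≤ M)
    {x y : ℝ} (hx : x ∈ Icc a b) (hy : y ∈ Icc a b) :
    |f.eval y - f.eval x| ≤ M * |y - x| := by
  have := (convex_Icc a b).norm_image_sub_le_of_norm_hasDerivWithin_le (f := fun x => f.eval x)
    (f' := fun x => f.derivative.eval x) (C := M)
    (fun z _ => (f.hasDerivAt z).hasDerivWithinAt) (fun z hz => hM z hz) hx hy
  simpa [Real.norm_eq_abs] using this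

/-- the window hypotheses -/
structure Win (n : ℕ) (a b σ : ℝ) : Prop where
  hn : 20 ≤ n
  ha : -1 ≤ a
  hab : a < b
  hb : b ≤ 1
  hσ : 0 < σ
  hs : ∀ x ∈ Icc a b, σ ^ 2 ≤ 1 - x ^ 2
  hnσ : 20 ≤ n * σ
  hw : 2 * n * (b - a) ≤ σ ^ 2

variable {n : ℕ} {a b σ : ℝ}

theorem Win.key (h : Win n a b σ) : 21 / 20 * n ^ 2 / σ ^ 2 * (b - a) ≤ 21 / 40 * n := by
  have hn0 : (0 : ℝ) < n := by
    have := h.hn
    have : (20 : ℝ) ≤ n := by exact_mod_cast this
    linarith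
  have h1 := h.hw
  have h2 := h.hσ
  rw [div_mul_eq_mul_div, div_le_iff₀ (by positivity)]
  nlinarith

theorem Win.lower (h : Win n a b σ) : ∃ Q : ℝ[X], Q.degree ≤ n ∧ Bdd Q ∧
    ∀ x ∈ Icc a b, 13 / 20 * n ≤ |Q.derivative.eval x| := by
  obtain ⟨k, rfl⟩ : ∃ k, n = k + 2 := ⟨n - 2, by have := h.hn; omega⟩
  have hn20 : (20 : ℝ) ≤ ((k + 2 : ℕ) : ℝ) := by exact_mod_cast h.hn
  set N : ℝ := ((k + 2 : ℕ) : ℝ) with hN
  have hk : (k : ℝ) + 1 = N - 1 := by
    rw [hN]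
    push_cast
    ring
  set x0 := (a + b) / 2 with hx0
  have hx0m : x0 ∈ Icc a b := ⟨by rw [hx0]; linarith [h.hab], by rw [hx0]; linarith [h.hab]⟩
  obtain ⟨e1, e2, e3⟩ := arccos_facts (h.ha.trans hx0m.1) (hx0m.2.trans h.hb) h.hσ.le
    (h.hs x0 hx0m)
  have hs0 : 0 < sin (arccos x0) := h.hσ.trans_le e2
  obtain ⟨p, r, hpr, hD⟩ := cmp_exists k hs0
  rw [e1] at hD
  refine ⟨cmp k p r, cmp_deg k p r, cmp_bdd k hpr, fun x hx => ?_⟩
  set Q := cmp k p r with hQ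
  have hQdeg : Q.natDegree ≤ k + 2 := natDegree_le_of_degree_le (cmp_deg k p r)
  have hlip := der_lip (f := Q.derivative) (fun y hy => der2_bound (by omega) hQdeg
    (cmp_bdd k hpr) (h.ha.trans hy.1) (hy.2.trans h.hb) h.hσ (h.hs y hy) h.hnσ) hx0m hx
  have hdist : |x - x0| ≤ (b - a) / 2 := by
    rw [abs_le, hx0]
    constructor <;> linarith [hx.1, hx.2]
  have hkey := h.key
  rw [← hN] at hlip hkey
  have h1 : 21 / 20 * N ^ 2 / σ ^ 2 * |x - x0| ≤ 21 / 80 * N := by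
    have h2 : 0 ≤ 21 / 20 * N ^ 2 / σ ^ 2 := by positivity
    calc 21 / 20 * N ^ 2 / σ ^ 2 * |x - x0| ≤ 21 / 20 * N ^ 2 / σ ^ 2 * ((b - a) / 2) :=
          mul_le_mul_of_nonneg_left hdist h2
      _ ≤ 21 / 80 * N := by linarith
  have h3 : 23 / 25 * N ≤ |Q.derivative.eval x0| := by
    have h4 : (k + 1 : ℝ) / sin (arccos x0) ≤ (N - 1) * (N / 20) := by
      rw [hk, div_le_iff₀ hs0]
      have h5 : 20 ≤ N * sin (arccos x0) :=
        h.hnσ.trans (mul_le_mul_of_nonneg_left e2 (by linarith))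
      have h6 : 1 ≤ N / 20 * sin (arccos x0) := by linarith
      nlinarith
    rw [hk] at hD h4
    have h7 : (23 / 25 * N) ^ 2 ≤ Q.derivative.eval x0 ^ 2 := by
      nlinarith
    have h8 := Real.sqrt_le_sqrt h7
    rwa [Real.sqrt_sq_eq_abs, Real.sqrt_sq_eq_abs, abs_of_nonneg (by linarith)] at h8
  have h9 : |Q.derivative.eval x0| - |Q.derivative.eval x| ≤
      |Q.derivative.eval x - Q.derivative.eval x0| := by
    have := abs_sub_abs_le_abs_sub (Q.derivative.eval x0) (Q.derivative.eval x)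
    rwa [abs_sub_comm] at this
  linarith

/-- If the derivative of an admissible polynomial is small on the window, it is not extremal. -/
theorem Win.contra (h : Win n a b σ) {P : ℝ[X]} (hP : Ext n a b P)
    (hs : ∀ x ∈ Icc a b, |P.derivative.eval x| ≤ 3 / 5 * n) : False := by
  obtain ⟨Q, hQd, hQb, hQ⟩ := h.lower
  have h1 := hP.max Q hQd hQb
  have hn0 : (20 : ℝ) ≤ n := by exact_mod_cast h.hn
  have h2 : arc a b P < arc a b Q := by
    have hlt : ∀ x ∈ Icc a b, √(1 + (P.derivative.eval x) ^ 2) <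
        √(1 + (Q.derivative.eval x) ^ 2) := by
      intro x hx
      apply Real.sqrt_lt_sqrt (by positivity)
      have h3 : |P.derivative.eval x| < |Q.derivative.eval x| := by
        have := hs x hx
        have := hQ x hx
        linarith
      have := sq_lt_sq.2 h3
      linarith
    refine intervalIntegral.integral_lt_integral_of_continuousOn_of_le_of_exists_lt h.hab
      (cont_s P).continuousOn (cont_s Q).continuousOn (fun x hx => (hlt x ⟨hx.1.le, hx.2⟩).le)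
      ⟨a, left_mem_Icc.2 h.hab.le, hlt a (left_mem_Icc.2 h.hab.le)⟩
  linarith

theorem Win.real_case (h : Win n a b σ) {P : ℝ[X]} (hP : Ext n a b P) {ζ : ℝ}
    (hζ : ζ ∈ Icc a b) : P.derivative.eval ζ ≠ 0 := by
  intro h0
  have hPd : P.natDegree ≤ n := natDegree_le_of_degree_le hP.deg
  have hn0 : (20 : ℝ) ≤ n := by exact_mod_cast h.hn
  refine h.contra hP (fun x hx => ?_)
  have hlip := der_lip (f := P.derivative) (fun y hy => der2_bound (by have := h.hn; omega) hPd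
    hP.bdd (h.ha.trans hy.1) (hy.2.trans h.hb) h.hσ (h.hs y hy) h.hnσ) hζ hx
  rw [h0, sub_zero] at hlip
  have hdist : |x - ζ| ≤ b - a := by
    rw [abs_le]
    constructor <;> linarith [hx.1, hx.2, hζ.1, hζ.2]
  have hkey := h.key
  have h2 : 0 ≤ 21 / 20 * (n : ℝ) ^ 2 / σ ^ 2 := by positivity
  have := mul_le_mul_of_nonneg_left hdist h2
  linarith

end

end Pool.Agent.Helper40.AS
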